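import Pool.Agent.Lib.MP_c2f9c6_al.Quot

set_option autoImplicit false

namespace Pool.Agent.MP_c2f9c6

open Pointwise

variable {G : Type*} [Group G] [TopologicalSpace G] [IsTopologicalGroup G] [CompactSpace G]
  [TotallyDisconnectedSpace G]

/-- closed subgroups of `G` contained in `H` -/
def Cl (H : Subgroup G) : Type _ := {K : Subgroup G // IsClosed (K : Set G) ∧ K ≤ H}

instance (H : Subgroup G) : PartialOrder (Cl H) :=
  inferInstanceAs (PartialOrder {K : Subgroup G // IsClosed (K : Set G) ∧ K ≤ H})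

theorem maxClosed_iff_wf {X : Type*} [Group X] [TopologicalSpace X] :
    MaxClosed X ↔ WellFoundedGT (ClosedSubgroup X) := by
  constructor
  · intro h
    refine ⟨WellFounded.wellFounded_iff_has_min.2 ?_⟩
    intro S hS
    obtain ⟨H, hH, hm⟩ := h S hS
    exact ⟨H, hH, fun K hK hlt => hlt.not_ge (hm hK hlt.le)⟩
  · intro h S hS
    obtain ⟨H, hH, hm⟩ := WellFounded.has_min h.wf S hS
    refine ⟨H, hH, fun K hK hle => ?_⟩
    by_contra hne
    exact hm K hK (lt_of_le_not_ge hle hne)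

theorem wf_cl_of_maxClosed {H : Subgroup G} (hH : IsClosed (H : Set G)) (h : MaxClosed H) :
    WellFoundedGT (Cl H) := by
  rw [maxClosed_iff_wf] at h
  let f : Cl H → ClosedSubgroup H := fun K =>
    ⟨K.1.subgroupOf H, K.2.1.preimage continuous_subtype_val⟩
  have hf : StrictMono f := by
    intro K K' hKK'
    refine lt_of_le_not_ge (fun x hx => hKK'.le hx) (fun hge => hKK'.not_ge ?_)
    intro x hx
    have : (⟨x, K'.2.2 hx⟩ : H) ∈ f K := hge (show (⟨x, K'.2.2 hx⟩ : H) ∈ f K' from hx)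
    exact this
  exact hf.wellFoundedGT

theorem maxClosed_of_wf_cl (h : WellFoundedGT (Cl (⊤ : Subgroup G))) : MaxClosed G := by
  rw [maxClosed_iff_wf]
  let f : ClosedSubgroup G → Cl (⊤ : Subgroup G) := fun K => ⟨K.toSubgroup, K.isClosed', le_top⟩
  have hf : StrictMono f := by
    intro K K' hKK'
    exact lt_of_le_not_ge (fun x hx => hKK'.le hx) (fun hge => hKK'.not_ge hge)
  exact hf.wellFoundedGT

/-- Extensions. -/
theorem wf_cl_sup {A B : Subgroup G} [A.Normal] (hAc : IsClosed (A : Set G))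
    (hBc : IsClosed (B : Set G)) (hA : WellFoundedGT (Cl A)) (hB : WellFoundedGT (Cl B)) :
    WellFoundedGT (Cl (A ⊔ B)) := by
  let f : Cl (A ⊔ B) → Cl A × Cl B := fun K =>
    (⟨K.1 ⊓ A, K.2.1.inter hAc, inf_le_right⟩,
      ⟨(A ⊔ K.1) ⊓ B, (isClosed_sup hAc K.2.1).inter hBc, inf_le_right⟩)
  have hf : StrictMono f := by
    intro K K' hKK'
    have hle : K.1 ≤ K'.1 := hKK'.le
    refine lt_of_le_not_ge ⟨?_, ?_⟩ (fun hge => hKK'.not_ge ?_)
    · exact inf_le_inf_right A hle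
    · exact inf_le_inf_right B (sup_le_sup_left hle A)
    · have h1 : K'.1 ⊓ A ≤ K.1 ⊓ A := hge.1
      have h2 : (A ⊔ K'.1) ⊓ B ≤ (A ⊔ K.1) ⊓ B := hge.2
      intro x hx
      -- x ∈ K' ≤ A ⊔ B
      have hx' : x ∈ A ⊔ B := K'.2.2 hx
      obtain ⟨a, ha, b, hb, rfl⟩ := Subgroup.mem_sup_of_normal_left.1 hx'
      have hb' : b ∈ (A ⊔ K'.1) ⊓ B := by
        refine ⟨?_, hb⟩
        have : b = a⁻¹ * (a * b) := by simp
        rw [this]
        exact Subgroup.mul_mem_sup (A.inv_mem ha) hx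
      obtain ⟨a', ha', k, hk, he⟩ := Subgroup.mem_sup_of_normal_left.1 (h2 hb').1
      -- a * b = a * a' * k
      have hk' : k ∈ K'.1 := hle hk
      have h3 : a * a' ∈ K'.1 := by
        have : a * a' = (a * b) * k⁻¹ := by rw [← he]; group
        rw [this]
        exact K'.1.mul_mem hx (K'.1.inv_mem hk')
      have h4 : a * a' ∈ K.1 := (h1 ⟨h3, A.mul_mem ha ha'⟩).1
      have : a * b = (a * a') * k := by rw [← he]; group
      show a * b ∈ K.1
      rw [this]
      exact K.1.mul_mem h4 hk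
  exact hf.wellFoundedGT

theorem wf_cl_finset {ι : Type*} (S : Finset ι) (F : ι → Subgroup G) (hF : ∀ p, (F p).Normal)
    (hFc : ∀ p, IsClosed (F p : Set G)) (hw : ∀ p, WellFoundedGT (Cl (F p))) :
    (S.sup F).Normal ∧ IsClosed ((S.sup F : Subgroup G) : Set G) ∧
      WellFoundedGT (Cl (S.sup F)) := by
  classical
  induction S using Finset.induction_on with
  | empty =>
    rw [Finset.sup_empty]
    refine ⟨inferInstance, by simp, ?_⟩
    have : Subsingleton (Cl (⊥ : Subgroup G)) := ⟨fun K K' => Subtype.ext (by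
      rw [eq_bot_iff.2 K.2.2, eq_bot_iff.2 K'.2.2])⟩
    infer_instance
  | insert a s ha ih =>
    rw [Finset.sup_insert]
    have := hF a
    have := ih.1
    exact ⟨inferInstance, isClosed_sup (hFc a) ih.2.1, wf_cl_sup (hFc a) ih.2.1 (hw a) ih.2.2⟩

/-- Finite extensions. -/
theorem maxClosed_of_open {N : Subgroup G} (hN : IsOpen (N : Set G)) (hw : WellFoundedGT (Cl N)) :
    MaxClosed G := by
  apply maxClosed_of_wf_cl
  have hfin : Finite (G ⧸ N) := Subgroup.quotient_finite_of_isOpen N hN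
  let f : Cl (⊤ : Subgroup G) → Cl N × Set (G ⧸ N) := fun K =>
    (⟨K.1 ⊓ N, K.2.1.inter (Subgroup.isClosed_of_isOpen _ hN), inf_le_right⟩,
      (fun x : G => (x : G ⧸ N)) '' (K.1 : Set G))
  have hf : StrictMono f := by
    intro K K' hKK'
    have hle : K.1 ≤ K'.1 := hKK'.le
    refine lt_of_le_not_ge ⟨?_, ?_⟩ (fun hge => hKK'.not_ge ?_)
    · exact inf_le_inf_right N hle
    · exact Set.image_mono hle
    · have h1 : K'.1 ⊓ N ≤ K.1 ⊓ N := hge.1
      have h2 : (fun x : G => (x : G ⧸ N)) '' (K'.1 : Set G) ⊆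
        (fun x : G => (x : G ⧸ N)) '' (K.1 : Set G) := hge.2
      intro x hx
      obtain ⟨k, hk, he⟩ := h2 ⟨x, hx, rfl⟩
      have h3 : k⁻¹ * x ∈ N := QuotientGroup.eq.1 he
      have h4 : k⁻¹ * x ∈ K'.1 := K'.1.mul_mem (K'.1.inv_mem (hle hk)) hx
      have h5 : k⁻¹ * x ∈ K.1 := (h1 ⟨h4, h3⟩).1
      show x ∈ K.1
      have : x = k * (k⁻¹ * x) := by simp
      rw [this]
      exact K.1.mul_mem hk h5
  exact hf.wellFoundedGT

theorem backward {ι : Type*} [Finite ι] (F : ι → Subgroup G) (hF : ∀ p, (F p).Normal)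
    (hFc : ∀ p, IsClosed (F p : Set G)) (hw : ∀ p, MaxClosed (F p))
    (ho : IsOpen ((⨆ p, F p : Subgroup G) : Set G)) : MaxClosed G := by
  have := Fintype.ofFinite ι
  obtain ⟨-, -, h⟩ := wf_cl_finset Finset.univ F hF hFc
    (fun p => wf_cl_of_maxClosed (hFc p) (hw p))
  rw [Finset.sup_univ_eq_iSup] at h
  exact maxClosed_of_open ho h

end Pool.Agent.MP_c2f9c6
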