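import Mathlib

set_option autoImplicit false

namespace Pool.Agent.MP_c2f9c6

open Pointwise

/-! ### Finite level: Sylow subgroups of a subgroup -/

section Finite

variable {H : Type*} [Group H] {p : ℕ}

/-- `P` is a Sylow `p`-subgroup of the subgroup `K` (relative version). -/
def SylIn (p : ℕ) (P K : Subgroup H) : Prop :=
  P ≤ K ∧ IsPGroup p P ∧ ¬ p ∣ P.relIndex K

theorem exists_sylIn [Finite H] [Fact p.Prime] (K : Subgroup H) : ∃ P, SylIn p P K := by
  obtain ⟨P⟩ : Nonempty (Sylow p K) := inferInstance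
  refine ⟨(P : Subgroup K).map K.subtype, Subgroup.map_subtype_le _, P.isPGroup'.map _, ?_⟩
  have h := P.not_dvd_index
  rwa [Subgroup.relIndex, Subgroup.subgroupOf, Subgroup.comap_map_eq_self_of_injective
    K.subtype_injective]

theorem mem_conj_smul {P : Subgroup H} {k x : H} :
    x ∈ MulAut.conj k • P ↔ k⁻¹ * x * k ∈ P := by
  rw [Subgroup.mem_pointwise_smul_iff_inv_smul_mem]
  simp [← map_inv, MulAut.conj_apply]

theorem SylIn.exists_conj [Finite H] [Fact p.Prime] {P Q K : Subgroup H} (hP : SylIn p P K)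
    (hQ : SylIn p Q K) : ∃ k ∈ K, MulAut.conj k • P = Q := by
  have hP' : IsPGroup p (P.subgroupOf K) := hP.2.1.comap_subtype
  have hQ' : IsPGroup p (Q.subgroupOf K) := hQ.2.1.comap_subtype
  let P' : Sylow p K := hP'.toSylow hP.2.2
  let Q' : Sylow p K := hQ'.toSylow hQ.2.2
  obtain ⟨k, hk⟩ := MulAction.exists_smul_eq K P' Q'
  have e : MulAut.conj k • (P.subgroupOf K) = Q.subgroupOf K := by
    have := congrArg (fun S : Sylow p K => (S : Subgroup K)) hk
    simpa [P', Q', Sylow.coe_subgroup_smul] using this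
  refine ⟨k, k.2, ?_⟩
  ext x
  rw [mem_conj_smul]
  have key : ∀ y : K, (y ∈ Q.subgroupOf K ↔ k⁻¹ * y * k ∈ P.subgroupOf K) := fun y => by
    rw [← e, mem_conj_smul]
  constructor
  · intro hx
    have hxK : x ∈ K := by
      have h1 := K.mul_mem (K.mul_mem k.2 (hP.1 hx)) (K.inv_mem k.2)
      simpa [mul_assoc] using h1
    have := (key ⟨x, hxK⟩).2 (by simpa [Subgroup.mem_subgroupOf] using hx)
    simpa [Subgroup.mem_subgroupOf] using this
  · intro hx
    have := (key ⟨x, hQ.1 hx⟩).1 (by simpa [Subgroup.mem_subgroupOf] using hx)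
    simpa [Subgroup.mem_subgroupOf] using this

theorem SylIn.smul {P K : Subgroup H} (hP : SylIn p P K) {g : H}
    (hg : MulAut.conj g • K = K) : SylIn p (MulAut.conj g • P) K := by
  refine ⟨?_, ?_, ?_⟩
  · rw [← hg]; exact Subgroup.pointwise_smul_le_pointwise_smul_iff.2 hP.1
  · exact hP.2.1.map _
  · have : (MulAut.conj g • P).relIndex (MulAut.conj g • K) = P.relIndex K :=
      Subgroup.relIndex_pointwise_smul _ _ _
    rw [hg] at this
    rw [this]; exact hP.2.2

/-- Sylow subgroups intersect normal subgroups in Sylow subgroups. -/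
theorem SylIn.inf {P : Subgroup H} [Finite H] (hP : SylIn p P ⊤) (N : Subgroup H) [N.Normal] :
    SylIn p (P ⊓ N) N := by
  refine ⟨inf_le_right, hP.2.1.to_inf_left, fun h => hP.2.2 ?_⟩
  rw [Subgroup.relIndex_top_right]
  have h1 : (P ⊓ N).relIndex N = P.relIndex N := Subgroup.inf_relIndex_right P N
  rw [h1] at h
  have h2 : P.relIndex N = P.relIndex (P ⊔ N) := by
    have a1 : P.relIndex (P ⊔ N) * N.relIndex P = N.relIndex P * P.relIndex N := by
      have e1 : (P ⊓ N).relIndex (P ⊔ N) = (P ⊓ N).relIndex P * P.relIndex (P ⊔ N) :=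
        (Subgroup.relIndex_mul_relIndex _ _ _ inf_le_left le_sup_left).symm
      have e2 : (P ⊓ N).relIndex (P ⊔ N) = (P ⊓ N).relIndex N * N.relIndex (P ⊔ N) :=
        (Subgroup.relIndex_mul_relIndex _ _ _ inf_le_right le_sup_right).symm
      rw [Subgroup.inf_relIndex_left] at e1
      rw [Subgroup.inf_relIndex_right, Subgroup.relIndex_sup_right] at e2
      rw [mul_comm, ← e1, e2, mul_comm]
    have hne : N.relIndex P ≠ 0 := Subgroup.index_ne_zero_of_finite
    have := Nat.eq_of_mul_eq_mul_left (Nat.pos_of_ne_zero hne) (by rw [← a1, mul_comm] :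
      N.relIndex P * P.relIndex N = N.relIndex P * P.relIndex (P ⊔ N))
    exact this
  rw [h2] at h
  exact h.trans (Subgroup.relIndex_dvd_index_of_le le_sup_left)

end Finite

/-! ### Profinite level -/

section Profinite

variable {G : Type*} [Group G] [TopologicalSpace G] [IsTopologicalGroup G] [CompactSpace G]

/-- Compactness: a decreasing family of nonempty closed sets indexed by the open normal subgroups
has a common point. -/
theorem exists_mem_all {X : OpenNormalSubgroup G → Set G}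
    (hanti : ∀ N M : OpenNormalSubgroup G, N ≤ M → X N ⊆ X M)
    (hne : ∀ N, (X N).Nonempty) (hcl : ∀ N, IsClosed (X N)) : ∃ x, ∀ N, x ∈ X N := by
  have : Nonempty (OpenNormalSubgroup G) := ⟨{ toSubgroup := ⊤, isOpen' := isOpen_univ }⟩
  obtain ⟨x, hx⟩ := IsCompact.nonempty_iInter_of_directed_nonempty_isCompact_isClosed X
    (fun N M => ⟨N ⊓ M, hanti _ _ inf_le_left, hanti _ _ inf_le_right⟩) hne
    (fun N => (hcl N).isCompact) hcl
  exact ⟨x, fun N => Set.mem_iInter.1 hx N⟩

variable [TotallyDisconnectedSpace G]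

theorem mem_of_forall {H : Subgroup G} (hH : IsClosed (H : Set G)) {x : G}
    (h : ∀ N : OpenNormalSubgroup G, ∃ y ∈ H, y⁻¹ * x ∈ N) : x ∈ H := by
  by_contra hx
  have hU : IsOpen ((fun g => x * g) ⁻¹' (H : Set G)ᶜ) :=
    hH.isOpen_compl.preimage (continuous_const_mul x)
  obtain ⟨N, hN⟩ := ProfiniteGrp.exist_openNormalSubgroup_sub_open_nhds_of_one hU
    (by simpa using hx)
  obtain ⟨y, hy, hyN⟩ := h N
  have h1 : (y⁻¹ * x)⁻¹ ∈ N := inv_mem hyN
  have h2 := hN h1
  simp at h2
  exact h2 hy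

theorem eq_one_of_forall {x : G} (h : ∀ N : OpenNormalSubgroup G, x ∈ N) : x = 1 := by
  have : x ∈ (⊥ : Subgroup G) := mem_of_forall (by simp) (fun N => ⟨1, by simp, by simpa using h N⟩)
  simpa using this

/-- The projection to the finite quotient. -/
abbrev pr (N : OpenNormalSubgroup G) : G →* G ⧸ N.toSubgroup := QuotientGroup.mk' N.toSubgroup

instance (N : OpenNormalSubgroup G) : Finite (G ⧸ N.toSubgroup) :=
  Subgroup.quotient_finite_of_isOpen N.toSubgroup N.isOpen'

theorem pr_mem_map {N : OpenNormalSubgroup G} {H : Subgroup G} {x : G} :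
    pr N x ∈ H.map (pr N) ↔ ∃ y ∈ H, y⁻¹ * x ∈ N := by
  constructor
  · rintro ⟨y, hy, he⟩
    exact ⟨y, hy, QuotientGroup.eq.1 he⟩
  · rintro ⟨y, hy, he⟩
    exact ⟨y, hy, QuotientGroup.eq.2 he⟩

theorem mem_of_forall_pr {H : Subgroup G} (hH : IsClosed (H : Set G)) {x : G}
    (h : ∀ N : OpenNormalSubgroup G, pr N x ∈ H.map (pr N)) : x ∈ H :=
  mem_of_forall hH (fun N => pr_mem_map.1 (h N))

theorem le_of_forall_pr {H K : Subgroup G} (hK : IsClosed (K : Set G))
    (h : ∀ N : OpenNormalSubgroup G, H.map (pr N) ≤ K.map (pr N)) : H ≤ K :=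
  fun _ hx => mem_of_forall_pr hK (fun N => h N ⟨_, hx, rfl⟩)

/-- Closed sets pulled back from a finite quotient. -/
theorem isClosed_preimage_pr (N : OpenNormalSubgroup G) (S : Set (G ⧸ N.toSubgroup)) :
    IsClosed (pr N ⁻¹' S) := by
  have : DiscreteTopology (G ⧸ N.toSubgroup) := QuotientGroup.discreteTopology N.isOpen'
  exact (isClosed_discrete S).preimage QuotientGroup.continuous_mk

theorem map_pr_mono {N M : OpenNormalSubgroup G} (h : N ≤ M) :
    ∃ f : G ⧸ N.toSubgroup →* G ⧸ M.toSubgroup, (∀ x, f (pr N x) = pr M x) ∧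
      Function.Surjective f := by
  refine ⟨QuotientGroup.map _ _ (MonoidHom.id G) h, fun x => rfl, ?_⟩
  intro y
  obtain ⟨x, rfl⟩ := QuotientGroup.mk'_surjective _ y
  exact ⟨pr N x, rfl⟩

/-- `P` is a Sylow pro-`p` subgroup of the closed subgroup `K` of the profinite group `G`. -/
def Syl (p : ℕ) (P K : Subgroup G) : Prop :=
  IsClosed (P : Set G) ∧ ∀ N : OpenNormalSubgroup G, SylIn p (P.map (pr N)) (K.map (pr N))

theorem Syl.le {p : ℕ} {P K : Subgroup G} (h : Syl p P K) (hK : IsClosed (K : Set G)) : P ≤ K :=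
  le_of_forall_pr hK (fun N => (h.2 N).1)

end Profinite

end Pool.Agent.MP_c2f9c6
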