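import Pool.Agent.Lib.MP_c2f9c6_al.Basic

set_option autoImplicit false

namespace Pool.Agent.MP_c2f9c6

open Pointwise

theorem relIndex_map_dvd {H H' : Type*} [Group H] [Group H'] (f : H →* H') {A B : Subgroup H}
    (hAB : A ≤ B) : (A.map f).relIndex (B.map f) ∣ A.relIndex B := by
  have h1 : (A.subgroupOf B).map (f.subgroupMap B) = (A.map f).subgroupOf (B.map f) := by
    ext ⟨y, hy⟩
    constructor
    · rintro ⟨⟨a, ha⟩, ha', he⟩
      simp only [Subgroup.mem_subgroupOf] at ha' ⊢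
      exact ⟨a, ha', by simpa using congrArg Subtype.val he⟩
    · intro h
      obtain ⟨a, ha, he⟩ := Subgroup.mem_subgroupOf.1 h
      exact ⟨⟨a, hAB ha⟩, ha, Subtype.ext he⟩
  rw [Subgroup.relIndex, ← h1]
  exact Subgroup.index_map_dvd _ (f.subgroupMap_surjective B)

theorem SylIn.map {H H' : Type*} [Group H] [Group H'] {p : ℕ} (f : H →* H') {A B : Subgroup H}
    (h : SylIn p A B) : SylIn p (A.map f) (B.map f) :=
  ⟨Subgroup.map_mono h.1, h.2.1.map f, fun hd => h.2.2 (hd.trans (relIndex_map_dvd f h.1))⟩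

theorem map_conj_smul {H H' : Type*} [Group H] [Group H'] (f : H →* H') (k : H) (P : Subgroup H) :
    (MulAut.conj k • P).map f = MulAut.conj (f k) • P.map f := by
  ext x
  rw [mem_conj_smul]
  constructor
  · rintro ⟨y, hy, rfl⟩
    have hy' : k⁻¹ * y * k ∈ P := mem_conj_smul.1 hy
    exact ⟨_, hy', by simp⟩
  · rintro ⟨y, hy, he⟩
    refine ⟨k * y * k⁻¹, ?_, ?_⟩
    · exact mem_conj_smul.2 (by simpa [mul_assoc] using hy)
    · simp [he, mul_assoc]

section Profinite

variable {G : Type*} [Group G] [TopologicalSpace G] [IsTopologicalGroup G] [CompactSpace G]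
  [TotallyDisconnectedSpace G] {p : ℕ}

theorem map_map_pr {N M : OpenNormalSubgroup G} {f : G ⧸ N.toSubgroup →* G ⧸ M.toSubgroup}
    (hf : ∀ x, f (pr N x) = pr M x) (P : Subgroup G) :
    (P.map (pr N)).map f = P.map (pr M) := by
  rw [Subgroup.map_map]
  congr 1
  ext x
  exact hf x

theorem isClosed_conj_smul {P : Subgroup G} (hP : IsClosed (P : Set G)) (k : G) :
    IsClosed ((MulAut.conj k • P : Subgroup G) : Set G) := by
  have : ((MulAut.conj k • P : Subgroup G) : Set G) = (fun x => k⁻¹ * x * k) ⁻¹' (P : Set G) := by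
    ext x
    exact mem_conj_smul
  rw [this]
  exact hP.preimage (by fun_prop)

/-- Existence of Sylow pro-`p` subgroups. -/
theorem exists_syl [Fact p.Prime] {K : Subgroup G} (hK : IsClosed (K : Set G)) :
    ∃ P, Syl p P K := by
  let S : Set (Subgroup G)ᵒᵈ := {H | IsClosed ((OrderDual.ofDual H : Subgroup G) : Set G) ∧
    (OrderDual.ofDual H) ≤ K ∧ ∀ N : OpenNormalSubgroup G,
      ¬ p ∣ ((OrderDual.ofDual H).map (pr N)).relIndex (K.map (pr N))}
  have hKS : OrderDual.toDual K ∈ S := ⟨hK, le_rfl, fun N => by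
    simp only [OrderDual.ofDual_toDual, Subgroup.relIndex_self]
    exact (Fact.out : p.Prime).one_lt.ne' ∘ Nat.dvd_one.1⟩
  obtain ⟨m, -, hm⟩ := zorn_le_nonempty₀ S (by
    intro c hcS hc y hy
    suffices hh : OrderDual.toDual (sInf (OrderDual.ofDual '' c) : Subgroup G) ∈ S ∧
        ∀ z ∈ c, z ≤ OrderDual.toDual (sInf (OrderDual.ofDual '' c) : Subgroup G) from
      ⟨_, hh.1, hh.2⟩
    refine ⟨⟨?_, ?_, ?_⟩, ?_⟩
    · simp only [OrderDual.ofDual_toDual, Subgroup.coe_sInf]
      refine isClosed_biInter ?_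
      rintro _ ⟨z, hz, rfl⟩
      exact (hcS hz).1
    · simp only [OrderDual.ofDual_toDual]
      exact le_trans (sInf_le (Set.mem_image_of_mem OrderDual.ofDual hy)) (hcS hy).2.1
    · intro N
      simp only [OrderDual.ofDual_toDual]
      -- minimal image
      obtain ⟨A, ⟨H1, hH1, rfl⟩, hmin⟩ := WellFounded.has_min
        (wellFounded_lt (α := Subgroup (G ⧸ N.toSubgroup)))
        ((fun H : (Subgroup G)ᵒᵈ => (OrderDual.ofDual H).map (pr N)) '' c) ⟨_, y, hy, rfl⟩
      have hle : ∀ H ∈ c, (OrderDual.ofDual H1).map (pr N) ≤ (OrderDual.ofDual H).map (pr N) := by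
        intro H hH
        rcases hc.total hH1 hH with h | h
        · have h' : (OrderDual.ofDual H).map (pr N) ≤ (OrderDual.ofDual H1).map (pr N) :=
            Subgroup.map_mono h
          by_contra hne
          exact hmin _ ⟨H, hH, rfl⟩ (lt_of_le_not_ge h' hne)
        · exact Subgroup.map_mono h
      have heq : (sInf (OrderDual.ofDual '' c) : Subgroup G).map (pr N) =
          (OrderDual.ofDual H1).map (pr N) := by
        apply le_antisymm
        · exact Subgroup.map_mono (sInf_le ⟨H1, hH1, rfl⟩)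
        · rintro x hx
          obtain ⟨x, rfl⟩ := QuotientGroup.mk'_surjective _ x
          have : Nonempty c := ⟨⟨y, hy⟩⟩
          obtain ⟨z, hz⟩ := IsCompact.nonempty_iInter_of_directed_nonempty_isCompact_isClosed
            (fun H : c => ((OrderDual.ofDual H.1 : Subgroup G) : Set G) ∩ pr N ⁻¹' {pr N x})
            (by
              intro H H'
              rcases hc.total H.2 H'.2 with h | h
              · exact ⟨H', fun z hz => ⟨h hz.1, hz.2⟩, le_rfl⟩
              · exact ⟨H, le_rfl, fun z hz => ⟨h hz.1, hz.2⟩⟩)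
            (by
              intro H
              obtain ⟨z, hz, he⟩ := hle H.1 H.2 hx
              exact ⟨z, hz, he⟩)
            (fun H => (((hcS H.2).1).inter (isClosed_preimage_pr N _)).isCompact)
            (fun H => ((hcS H.2).1).inter (isClosed_preimage_pr N _))
          rw [Set.mem_iInter] at hz
          refine ⟨z, ?_, (hz ⟨y, hy⟩).2⟩
          rw [SetLike.mem_coe, Subgroup.mem_sInf]
          rintro _ ⟨H, hH, rfl⟩
          exact (hz ⟨H, hH⟩).1
      rw [heq]
      exact (hcS hH1).2.2 N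
    · intro z hz
      exact (sInf_le ⟨z, hz, rfl⟩ : sInf (OrderDual.ofDual '' c) ≤ OrderDual.ofDual z)) _ hKS
  set P : Subgroup G := OrderDual.ofDual m with hPdef
  have hPS := hm.prop
  refine ⟨P, hPS.1, fun N => ⟨Subgroup.map_mono hPS.2.1, ?_, hPS.2.2 N⟩⟩
  obtain ⟨Q, hQ⟩ := exists_sylIn (p := p) (P.map (pr N))
  have hP' : OrderDual.toDual (P ⊓ Q.comap (pr N)) ∈ S := by
    refine ⟨?_, ?_, ?_⟩
    · simp only [OrderDual.ofDual_toDual, Subgroup.coe_inf]
      exact hPS.1.inter (isClosed_preimage_pr N _)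
    · exact inf_le_left.trans hPS.2.1
    · intro M
      simp only [OrderDual.ofDual_toDual]
      rw [← Subgroup.relIndex_mul_relIndex _ (P.map (pr M)) _ (Subgroup.map_mono inf_le_left)
        (Subgroup.map_mono hPS.2.1), (Fact.out : p.Prime).dvd_mul, not_or]
      refine ⟨fun hd => hQ.2.2 ?_, hPS.2.2 M⟩
      have h1 := hd.trans (relIndex_map_dvd (pr M) (inf_le_left : P ⊓ Q.comap (pr N) ≤ P))
      rwa [Subgroup.inf_relIndex_left, Subgroup.relIndex_comap] at h1
  have h2 : P ≤ P ⊓ Q.comap (pr N) :=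
    hm.le_of_ge hP' (show P ⊓ Q.comap (pr N) ≤ P from inf_le_left)
  have h3 : P.map (pr N) ≤ Q := Subgroup.map_le_iff_le_comap.2 (h2.trans inf_le_right)
  exact hQ.2.1.to_le h3

/-- Sylow pro-`p` subgroups are conjugate. -/
theorem Syl.exists_conj [Fact p.Prime] {P Q K : Subgroup G} (hK : IsClosed (K : Set G))
    (hP : Syl p P K) (hQ : Syl p Q K) : ∃ k ∈ K, MulAut.conj k • P = Q := by
  obtain ⟨k, hk⟩ := exists_mem_all
    (X := fun N => (K : Set G) ∩ {k | (MulAut.conj k • P).map (pr N) = Q.map (pr N)})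
    (by
      rintro N M hNM k ⟨hkK, hk⟩
      obtain ⟨f, hf, -⟩ := map_pr_mono hNM
      refine ⟨hkK, ?_⟩
      have := congrArg (Subgroup.map f) hk
      rwa [map_map_pr hf, map_map_pr hf] at this)
    (by
      intro N
      obtain ⟨k, ⟨k, hk, rfl⟩, he⟩ := (hP.2 N).exists_conj (hQ.2 N)
      exact ⟨k, hk, by rw [Set.mem_ofPred_eq, map_conj_smul, he]⟩)
    (by
      intro N
      refine hK.inter ?_
      have : {k | (MulAut.conj k • P).map (pr N) = Q.map (pr N)} =
        pr N ⁻¹' {k | MulAut.conj k • P.map (pr N) = Q.map (pr N)} := by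
        ext k
        simp only [Set.mem_ofPred_eq, Set.mem_preimage, map_conj_smul]
      rw [this]
      exact isClosed_preimage_pr N _)
  refine ⟨k, (hk ⟨⟨⊤, isOpen_univ⟩, inferInstance⟩).1, le_antisymm ?_ ?_⟩
  · exact le_of_forall_pr hQ.1 (fun N => (hk N).2.le)
  · exact le_of_forall_pr (isClosed_conj_smul hP.1 k) (fun N => (hk N).2.ge)

theorem Syl.smul {P K : Subgroup G} (hP : Syl p P K) {g : G}
    (hg : MulAut.conj g • K = K) : Syl p (MulAut.conj g • P) K := by
  refine ⟨isClosed_conj_smul hP.1 g, fun N => ?_⟩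
  rw [map_conj_smul]
  refine (hP.2 N).smul ?_
  rw [← map_conj_smul, hg]

theorem Syl.inf {P : Subgroup G} (hP : Syl p P ⊤) (M : OpenNormalSubgroup G) :
    Syl p (P ⊓ M.toSubgroup) M.toSubgroup := by
  refine ⟨hP.1.inter (Subgroup.isClosed_of_isOpen _ M.isOpen'), fun N => ?_⟩
  obtain ⟨f, hf, -⟩ := map_pr_mono (inf_le_left : N ⊓ M ≤ N)
  rw [← map_map_pr hf, ← map_map_pr hf]
  apply SylIn.map
  have h1 : (P ⊓ M.toSubgroup).map (pr (N ⊓ M)) =
      P.map (pr (N ⊓ M)) ⊓ M.toSubgroup.map (pr (N ⊓ M)) := by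
    apply le_antisymm (Subgroup.map_inf_le _ _ _)
    rintro x ⟨⟨a, ha, rfl⟩, ⟨b, hb, he⟩⟩
    refine ⟨a, ⟨ha, ?_⟩, rfl⟩
    have h2 : b⁻¹ * a ∈ (N ⊓ M).toSubgroup := QuotientGroup.eq.1 he
    have h3 : b⁻¹ * a ∈ M.toSubgroup := h2.2
    simpa using M.toSubgroup.mul_mem hb h3
  rw [h1]
  have : (M.toSubgroup.map (pr (N ⊓ M))).Normal :=
    Subgroup.Normal.map inferInstance _ (QuotientGroup.mk'_surjective _)
  apply SylIn.inf
  have := hP.2 (N ⊓ M)
  rwa [← MonoidHom.range_eq_map, MonoidHom.range_eq_top.2 (QuotientGroup.mk'_surjective _)] at this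

/-- Frattini argument. -/
theorem frattini [Fact p.Prime] {P N : Subgroup G} [N.Normal] (hN : IsClosed (N : Set G))
    (hP : Syl p P N) (g : G) : ∃ n ∈ N, MulAut.conj (n * g) • P = P := by
  have hg : MulAut.conj g • N = N := by
    ext x
    rw [mem_conj_smul]
    constructor
    · intro h
      have := (inferInstance : N.Normal).conj_mem _ h g
      simpa [mul_assoc] using this
    · intro h
      have := (inferInstance : N.Normal).conj_mem _ h g⁻¹
      simpa using this
  obtain ⟨n, hn, he⟩ := Syl.exists_conj hN (hP.smul hg) hP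
  refine ⟨n, hn, ?_⟩
  rw [map_mul, mul_smul, he]

end Profinite

end Pool.Agent.MP_c2f9c6
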