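import Pool.Agent.Lib.MP_c2f9c6_al.Defs
import Pool.Agent.Lib.MP_c2f9c6_al.Sylow

set_option autoImplicit false

namespace Pool.Agent.MP_c2f9c6

open Pointwise

section

variable {G : Type*} [Group G] [TopologicalSpace G]

/-- the stabiliser of a subgroup under conjugation, i.e. the normaliser. -/
def stab (Q : Subgroup G) : Subgroup G :=
  (MulAction.stabilizer (MulAut G) Q).comap MulAut.conj

omit [TopologicalSpace G] in
theorem mem_stab {Q : Subgroup G} {g : G} : g ∈ stab Q ↔ MulAut.conj g • Q = Q := Iff.rfl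

variable [IsTopologicalGroup G]

theorem isClosed_stab {Q : Subgroup G} (hQ : IsClosed (Q : Set G)) :
    IsClosed ((stab Q : Subgroup G) : Set G) := by
  have : ((stab Q : Subgroup G) : Set G) =
      ⋂ x ∈ (Q : Set G), ({g : G | g * x * g⁻¹ ∈ Q} ∩ {g : G | g⁻¹ * x * g ∈ Q}) := by
    ext g
    simp only [SetLike.mem_coe, Set.mem_iInter, Set.mem_inter_iff, Set.mem_ofPred_eq]
    constructor
    · intro h x hx
      have h' : MulAut.conj g • Q = Q := h
      constructor
      · rw [← h']
        rw [mem_conj_smul]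
        simpa [mul_assoc] using hx
      · rw [← h'] at hx
        exact mem_conj_smul.1 hx
    · intro h
      rw [mem_stab]
      ext x
      rw [mem_conj_smul]
      constructor
      · intro hx
        have := (h _ hx).1
        simpa [mul_assoc] using this
      · intro hx
        exact (h x hx).2
  rw [this]
  refine isClosed_biInter fun x _ => IsClosed.inter ?_ ?_
  · exact hQ.preimage (by fun_prop : Continuous fun g : G => g * x * g⁻¹)
  · exact hQ.preimage (by fun_prop : Continuous fun g : G => g⁻¹ * x * g)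

variable [CompactSpace G] [TotallyDisconnectedSpace G] {p : ℕ}

/-- The normaliser chain trick. -/
theorem exists_normal_syl (hG : MaxClosed G) [Fact p.Prime] :
    ∃ (N : OpenNormalSubgroup G) (F : Subgroup G), F.Normal ∧ Syl p F N.toSubgroup := by
  obtain ⟨P, hP⟩ := exists_syl (p := p) (K := (⊤ : Subgroup G)) isClosed_univ
  have hcl : ∀ N : OpenNormalSubgroup G, IsClosed ((P ⊓ N.toSubgroup : Subgroup G) : Set G) :=
    fun N => (hP.inf N).1
  let L : OpenNormalSubgroup G → ClosedSubgroup G := fun N =>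
    ⟨stab (P ⊓ N.toSubgroup), isClosed_stab (hcl N)⟩
  obtain ⟨_, ⟨N0, rfl⟩, hmax⟩ := hG (Set.range L) ⟨L ⟨⟨⊤, isOpen_univ⟩, inferInstance⟩, ⟨_, rfl⟩⟩
  have hmono : ∀ N M : OpenNormalSubgroup G, N ≤ M → L M ≤ L N := by
    intro N M hNM g hg
    have hg' : MulAut.conj g • (P ⊓ M.toSubgroup) = P ⊓ M.toSubgroup := hg
    have e : P ⊓ N.toSubgroup = (P ⊓ M.toSubgroup) ⊓ N.toSubgroup := by
      rw [inf_assoc, inf_eq_right.2 (show N.toSubgroup ≤ M.toSubgroup from hNM)]
    show MulAut.conj g • (P ⊓ N.toSubgroup) = P ⊓ N.toSubgroup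
    have hn : MulAut.conj g • N.toSubgroup = N.toSubgroup := by
      ext x
      rw [mem_conj_smul]
      constructor
      · intro h
        have := N.isNormal'.conj_mem _ h g
        simpa [mul_assoc] using this
      · intro h
        have := N.isNormal'.conj_mem _ h g⁻¹
        simpa using this
    rw [e, Subgroup.smul_inf, hg', hn]
  have hall : ∀ g : G, g ∈ stab (P ⊓ N0.toSubgroup) := by
    intro g
    refine mem_of_forall (isClosed_stab (hcl N0)) (fun N => ?_)
    obtain ⟨n, hn, he⟩ := frattini (N := (N ⊓ N0).toSubgroup)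
      (Subgroup.isClosed_of_isOpen _ (N ⊓ N0).isOpen') (hP.inf (N ⊓ N0)) g
    have h1 : n * g ∈ L (N ⊓ N0) := he
    have h2 : L (N ⊓ N0) ≤ L N0 := hmax ⟨_, rfl⟩ (hmono _ _ inf_le_right)
    refine ⟨n * g, h2 h1, ?_⟩
    have h3 : g⁻¹ * n⁻¹ * g ∈ (N ⊓ N0).toSubgroup := by
      have := (N ⊓ N0).isNormal'.conj_mem _ (inv_mem hn) g⁻¹
      simpa using this
    have h4 : g⁻¹ * n⁻¹ * g ∈ N.toSubgroup := h3.1
    have h5 : (n * g)⁻¹ * g = g⁻¹ * n⁻¹ * g := by group
    rw [h5]
    exact h4
  refine ⟨N0, P ⊓ N0.toSubgroup, ⟨fun x hx g => ?_⟩, hP.inf N0⟩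
  have := hall g
  rw [mem_stab] at this
  rw [← this, mem_conj_smul]
  simpa [mul_assoc] using hx

end

end Pool.Agent.MP_c2f9c6
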