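import Pool.Agent.Lib.MP_c2f9c6_al.Basic

set_option autoImplicit false

namespace Pool.Agent.MP_c2f9c6

open Pointwise

section

variable {H : Type*} [Group H] {p : ℕ}

/-- A `p`-group normalising a subgroup `K` of order prime to `p` normalises a Sylow `q`-subgroup. -/
theorem exists_invariant_sylIn [Finite H] [Fact p.Prime] {q : ℕ} [Fact q.Prime] {E K : Subgroup H}
    (hE : IsPGroup p E) (hEK : ∀ e ∈ E, MulAut.conj e • K = K) (hpK : ¬ p ∣ Nat.card K) :
    ∃ Q, SylIn q Q K ∧ ∀ e ∈ E, MulAut.conj e • Q = Q := by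
  have hmem : ∀ (e : E) (k : K), (e : H) * k * (e : H)⁻¹ ∈ K := by
    intro e k
    have h2 : (e : H) * k * (e : H)⁻¹ ∈ MulAut.conj (e : H) • K := by
      rw [mem_conj_smul]
      simp [mul_assoc]
    rwa [hEK e e.2] at h2
  let _ : MulDistribMulAction E K :=
    { smul := fun e k => ⟨e * k * (e : H)⁻¹, hmem e k⟩
      one_smul := fun k => Subtype.ext (by show (1 : H) * k * (1 : H)⁻¹ = k; simp)
      mul_smul := fun e f k => Subtype.ext (by
        show ((e * f : E) : H) * k * ((e * f : E) : H)⁻¹ = e * (f * k * (f : H)⁻¹) * (e : H)⁻¹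
        simp [mul_assoc])
      smul_one := fun e => Subtype.ext (by show (e : H) * (1 : H) * (e : H)⁻¹ = 1; simp)
      smul_mul := fun e k l => Subtype.ext (by
        show (e : H) * ((k : H) * l) * (e : H)⁻¹ =
          ((e : H) * k * (e : H)⁻¹) * ((e : H) * l * (e : H)⁻¹)
        simp [mul_assoc]) }
  have hsm : ∀ (e : E) (k : K), ((e • k : K) : H) = e * k * (e : H)⁻¹ := fun _ _ => rfl
  obtain ⟨Q0⟩ : Nonempty (Sylow q K) := inferInstance
  have hcard : ¬ p ∣ Nat.card (Sylow q K) := fun h =>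
    hpK ((h.trans (Sylow.card_dvd_index Q0)).trans (Subgroup.index_dvd_card _))
  obtain ⟨R, hR⟩ := hE.nonempty_fixed_point_of_prime_not_dvd_card (Sylow q K) hcard
  refine ⟨(R : Subgroup K).map K.subtype, ⟨Subgroup.map_subtype_le _, R.isPGroup'.map _, ?_⟩, ?_⟩
  · have h := R.not_dvd_index
    rwa [Subgroup.relIndex, Subgroup.subgroupOf, Subgroup.comap_map_eq_self_of_injective
      K.subtype_injective]
  · intro e he
    have hfix : (⟨e, he⟩ : E) • R = R := hR ⟨e, he⟩
    have hfix' : (⟨e, he⟩ : E) • (R : Subgroup K) = (R : Subgroup K) := by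
      have := congrArg (fun S : Sylow q K => (S : Subgroup K)) hfix
      simpa [Sylow.pointwise_smul_def] using this
    ext x
    rw [mem_conj_smul]
    constructor
    · rintro ⟨k, hk, hke⟩
      refine ⟨(⟨e, he⟩ : E) • k, ?_, ?_⟩
      · rw [SetLike.mem_coe, ← hfix']
        exact Subgroup.smul_mem_pointwise_smul _ _ _ hk
      · show ((⟨e, he⟩ : E) • k : K).1 = x
        rw [hsm]
        have : (k : H) = e⁻¹ * x * e := hke
        rw [this]
        simp [mul_assoc]
    · rintro ⟨k, hk, rfl⟩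
      refine ⟨(⟨e, he⟩ : E)⁻¹ • k, ?_, ?_⟩
      · rw [SetLike.mem_coe, ← Subgroup.mem_pointwise_smul_iff_inv_smul_mem, hfix']
        exact hk
      · show ((⟨e, he⟩ : E)⁻¹ • k : K).1 = _
        rw [hsm]
        simp

/-- A `p`-group acting by conjugation on a left coset of a subgroup of order prime to `p`
has a fixed point. -/
theorem exists_fixed_in_coset [Finite H] [Fact p.Prime] {E R : Subgroup H} {k : H}
    (hE : IsPGroup p E) (hR : ¬ p ∣ Nat.card R)
    (hEk : ∀ e ∈ E, ∀ y : H, k⁻¹ * y ∈ R → k⁻¹ * (e * y * e⁻¹) ∈ R) :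
    ∃ y : H, k⁻¹ * y ∈ R ∧ ∀ e ∈ E, e * y * e⁻¹ = y := by
  let Y := {y : H // k⁻¹ * y ∈ R}
  let _ : MulAction E Y :=
    { smul := fun e y => ⟨e * y.1 * (e : H)⁻¹, hEk e e.2 y.1 y.2⟩
      one_smul := fun y => Subtype.ext (by show (1 : H) * y.1 * (1 : H)⁻¹ = y.1; simp)
      mul_smul := fun e f y => Subtype.ext (by
        show ((e * f : E) : H) * y.1 * ((e * f : E) : H)⁻¹ = e * (f * y.1 * (f : H)⁻¹) * (e : H)⁻¹
        simp [mul_assoc]) }
  have hc : Nat.card Y = Nat.card R := by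
    refine Nat.card_congr ⟨fun y => ⟨k⁻¹ * y.1, y.2⟩, fun r => ⟨k * r.1, by simp⟩, ?_, ?_⟩
    · intro y; simp
    · intro r; simp
  obtain ⟨y, hy⟩ := hE.nonempty_fixed_point_of_prime_not_dvd_card Y (by rwa [hc])
  exact ⟨y.1, y.2, fun e he => congrArg Subtype.val (hy ⟨e, he⟩)⟩

end

/-- In a finite soluble group `M`, above every proper normal subgroup `L` there is a normal
subgroup `L' = L E` with `E` a `p`-group. -/
theorem exists_layer {M : Type*} [Group M] [Finite M] [Group.IsSolvable M] (L : Subgroup M) [L.Normal]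
    (hL : L ≠ ⊤) : ∃ (p : ℕ) (_ : p.Prime) (L' E : Subgroup M), L'.Normal ∧ L < L' ∧
      IsPGroup p E ∧ L' = L ⊔ E := by
  classical
  have hsol : Group.IsSolvable (M ⧸ L) := inferInstance
  have hnt : Nontrivial (M ⧸ L) := QuotientGroup.nontrivial_iff.2 hL
  obtain ⟨n, hn⟩ := (Group.isSolvable_def (M ⧸ L)).1 hsol
  let m := Nat.find (⟨n, hn⟩ : ∃ n, derivedSeries (M ⧸ L) n = ⊥)
  have hm : derivedSeries (M ⧸ L) m = ⊥ := Nat.find_spec (⟨n, hn⟩ : ∃ n, derivedSeries (M ⧸ L) n = ⊥)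
  have hm0 : m ≠ 0 := by
    intro h0
    rw [h0, derivedSeries_zero] at hm
    exact top_ne_bot hm
  obtain ⟨j, hj⟩ := Nat.exists_eq_succ_of_ne_zero hm0
  set A := derivedSeries (M ⧸ L) j with hA
  have hAne : A ≠ ⊥ := Nat.find_min (⟨n, hn⟩ : ∃ n, derivedSeries (M ⧸ L) n = ⊥)
    (show j < m by omega)
  have hAn : A.Normal := derivedSeries_normal _ _
  have hAA : ⁅A, A⁆ = ⊥ := by
    rw [hj, Nat.succ_eq_add_one, derivedSeries_succ] at hm
    exact hm
  have hAc : ∀ a ∈ A, ∀ b ∈ A, Commute a b := by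
    intro a ha b hb
    have := Subgroup.commutator_mem_commutator ha hb
    rw [hAA, Subgroup.mem_bot] at this
    exact commutatorElement_eq_one_iff_commute.1 this
  have hcA : Nat.card A ≠ 1 := by
    rw [Ne, Subgroup.card_eq_one]; exact hAne
  obtain ⟨p, hp, hpA⟩ := Nat.exists_prime_and_dvd hcA
  have : Fact p.Prime := ⟨hp⟩
  let B : Subgroup (M ⧸ L) :=
    { carrier := {a | a ∈ A ∧ a ^ p = 1}
      mul_mem' := by
        rintro a b ⟨ha, ha'⟩ ⟨hb, hb'⟩
        exact ⟨A.mul_mem ha hb, by rw [(hAc a ha b hb).mul_pow, ha', hb', one_mul]⟩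
      one_mem' := ⟨A.one_mem, one_pow _⟩
      inv_mem' := by
        rintro a ⟨ha, ha'⟩
        exact ⟨A.inv_mem ha, by rw [inv_pow, ha', inv_one]⟩ }
  have hBn : B.Normal := ⟨by
    rintro a ⟨ha, ha'⟩ g
    refine ⟨hAn.conj_mem a ha g, ?_⟩
    rw [conj_pow, ha']
    simp⟩
  have hBp : IsPGroup p B := by
    intro b
    exact ⟨1, Subtype.ext (by simpa using b.2.2)⟩
  obtain ⟨a, ha⟩ := exists_prime_orderOf_dvd_card' (G := A) p hpA
  have haB : (a : M ⧸ L) ∈ B := ⟨a.2, by
    have := pow_orderOf_eq_one a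
    rw [ha] at this
    exact congrArg Subtype.val this⟩
  have hane : (a : M ⧸ L) ≠ 1 := by
    intro h
    have : a = 1 := Subtype.ext h
    rw [this, orderOf_one] at ha
    exact hp.one_lt.ne ha
  let L' := B.comap (QuotientGroup.mk' L)
  have hLL' : L ≤ L' := by
    intro x hx
    have h1 : QuotientGroup.mk' L x = 1 := (QuotientGroup.eq_one_iff x).2 hx
    show QuotientGroup.mk' L x ∈ B
    rw [h1]
    exact B.one_mem
  obtain ⟨E, hE⟩ := exists_sylIn (p := p) L'
  refine ⟨p, hp, L', E, inferInstance, lt_of_le_not_ge hLL' ?_, hE.2.1, ?_⟩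
  · intro h
    obtain ⟨x, hx⟩ := QuotientGroup.mk'_surjective L (a : M ⧸ L)
    have hx' : x ∈ L' := by show QuotientGroup.mk' L x ∈ B; rw [hx]; exact haB
    exact hane (by rw [← hx]; exact (QuotientGroup.eq_one_iff x).2 (h hx'))
  · apply le_antisymm _ (sup_le hLL' hE.1)
    rw [← Subgroup.relIndex_eq_one]
    obtain ⟨k, hk⟩ := (IsPGroup.iff_card).1 hBp
    have h1 : L.relIndex L' = p ^ k := by
      have := Subgroup.relIndex_ker L' (QuotientGroup.mk' L)
      rw [QuotientGroup.ker_mk'] at this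
      rw [this, Subgroup.map_comap_eq_self_of_surjective (QuotientGroup.mk'_surjective L), hk]
    have h2 : (L ⊔ E).relIndex L' ∣ p ^ k := h1 ▸ Subgroup.relIndex_dvd_of_le_left _ le_sup_left
    have h3 : (L ⊔ E).relIndex L' ∣ E.relIndex L' := Subgroup.relIndex_dvd_of_le_left _ le_sup_right
    obtain ⟨i, -, hi⟩ := (Nat.dvd_prime_pow hp).1 h2
    rcases Nat.eq_zero_or_pos i with rfl | hi'
    · simpa using hi
    · exfalso
      apply hE.2.2
      refine dvd_trans ?_ h3
      rw [hi]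
      exact dvd_pow_self _ hi'.ne'

end Pool.Agent.MP_c2f9c6
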