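import Pool.Agent.Lib.MP_c2f9c6_al.Chain
import Pool.Agent.Lib.MP_c2f9c6_al.FinGrp

set_option autoImplicit false

namespace Pool.Agent.MP_c2f9c6

open Pointwise

variable {G : Type*} [Group G] [TopologicalSpace G]

/-- order prime to `p` -/
def PrimeTo (p : ℕ) (K : Subgroup G) : Prop :=
  ∀ N : OpenNormalSubgroup G, ¬ p ∣ Nat.card (K.map (pr N))

theorem PrimeTo.mono {p : ℕ} {K K' : Subgroup G} (h : PrimeTo p K) (hK : K' ≤ K) :
    PrimeTo p K' := fun N hd => h N (hd.trans (Subgroup.card_dvd_of_le (Subgroup.map_mono hK)))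

variable [IsTopologicalGroup G] [CompactSpace G] [TotallyDisconnectedSpace G]

theorem eq_bot_of_primeTo {q : ℕ} [Fact q.Prime] {Q : Subgroup G}
    (h1 : ∀ N : OpenNormalSubgroup G, IsPGroup q (Q.map (pr N))) (h2 : PrimeTo q Q) : Q = ⊥ := by
  rw [eq_bot_iff]
  apply le_of_forall_pr (by simp)
  intro N
  have := (h1 N).card_eq_or_dvd
  rcases this with h | h
  · rw [Subgroup.card_eq_one] at h
    rw [h]; exact bot_le
  · exact absurd h (h2 N)

theorem finite_of_primeTo_open {q : ℕ} [Fact q.Prime] {Q : Subgroup G}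
    (h1 : ∀ N : OpenNormalSubgroup G, IsPGroup q (Q.map (pr N)))
    {M : OpenNormalSubgroup G} (hM : PrimeTo q M.toSubgroup) : Finite Q := by
  have h0 : Q ⊓ M.toSubgroup = ⊥ := by
    apply eq_bot_of_primeTo (q := q)
    · intro N
      exact (h1 N).to_le (Subgroup.map_mono inf_le_left)
    · exact hM.mono inf_le_right
  refine Finite.of_injective (fun x : Q => pr M x.1) ?_
  intro x y hxy
  have h2 : x.1⁻¹ * y.1 ∈ M.toSubgroup := QuotientGroup.eq.1 hxy
  have h3 : x.1⁻¹ * y.1 ∈ Q ⊓ M.toSubgroup := ⟨Q.mul_mem (Q.inv_mem x.2) y.2, h2⟩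
  rw [h0, Subgroup.mem_bot] at h3
  exact Subtype.ext (inv_mul_eq_one.1 h3)

variable {p q : ℕ} [Fact p.Prime] [Fact q.Prime]

theorem exists_invariant_syl {E K : Subgroup G} (hK : IsClosed (K : Set G))
    (hE : IsPGroup p E) (hEK : ∀ e ∈ E, MulAut.conj e • K = K) (hpK : PrimeTo p K) :
    ∃ Q, Syl q Q K ∧ ∀ e ∈ E, MulAut.conj e • Q = Q := by
  obtain ⟨Q0, hQ0⟩ := exists_syl (p := q) hK
  obtain ⟨k, hk⟩ := exists_mem_all
    (X := fun N => (K : Set G) ∩ ⋂ e ∈ (E : Set G),
      {k | (MulAut.conj (e * k) • Q0).map (pr N) = (MulAut.conj k • Q0).map (pr N)})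
    (by
      rintro N M hNM k ⟨hkK, hk⟩
      obtain ⟨f, hf, -⟩ := map_pr_mono hNM
      refine ⟨hkK, ?_⟩
      simp only [Set.mem_iInter] at hk ⊢
      intro e he
      have := congrArg (Subgroup.map f) (hk e he)
      rwa [map_map_pr hf, map_map_pr hf] at this)
    (by
      intro N
      obtain ⟨R, hR, hR'⟩ := exists_invariant_sylIn (q := q) (E := E.map (pr N))
        (K := K.map (pr N)) (hE.map _)
        (by
          rintro _ ⟨e, he, rfl⟩
          rw [← map_conj_smul, hEK e he]) (hpK N)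
      obtain ⟨_, ⟨k, hk, rfl⟩, he⟩ := (hQ0.2 N).exists_conj hR
      refine ⟨k, hk, ?_⟩
      simp only [Set.mem_iInter]
      intro e he'
      show (MulAut.conj (e * k) • Q0).map (pr N) = (MulAut.conj k • Q0).map (pr N)
      rw [map_conj_smul, map_conj_smul, map_mul, map_mul, mul_smul, he]
      exact hR' _ ⟨e, he', rfl⟩)
    (by
      intro N
      refine hK.inter (isClosed_biInter fun e _ => ?_)
      have : {k | (MulAut.conj (e * k) • Q0).map (pr N) = (MulAut.conj k • Q0).map (pr N)} =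
        pr N ⁻¹' {k | MulAut.conj (pr N e * k) • Q0.map (pr N) =
          MulAut.conj k • Q0.map (pr N)} := by
        ext k
        show (MulAut.conj (e * k) • Q0).map (pr N) = (MulAut.conj k • Q0).map (pr N) ↔
          MulAut.conj (pr N e * pr N k) • Q0.map (pr N) = MulAut.conj (pr N k) • Q0.map (pr N)
        rw [map_conj_smul, map_conj_smul, map_mul (pr N)]
      rw [this]
      exact isClosed_preimage_pr N _)
  have hkK : k ∈ K := (hk ⟨⟨⊤, isOpen_univ⟩, inferInstance⟩).1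
  have hkK' : MulAut.conj k • K = K := by
    ext x
    rw [mem_conj_smul]
    constructor
    · intro h
      have := K.mul_mem (K.mul_mem hkK h) (K.inv_mem hkK)
      simpa [mul_assoc] using this
    · intro h
      exact K.mul_mem (K.mul_mem (K.inv_mem hkK) h) hkK
  refine ⟨MulAut.conj k • Q0, hQ0.smul hkK', ?_⟩
  intro e he
  rw [← mul_smul, ← map_mul]
  have h1 : ∀ N : OpenNormalSubgroup G,
      (MulAut.conj (e * k) • Q0).map (pr N) = (MulAut.conj k • Q0).map (pr N) := fun N => by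
    have := (hk N).2
    simp only [Set.mem_iInter] at this
    exact this e he
  exact le_antisymm
    (le_of_forall_pr (isClosed_conj_smul hQ0.1 _) (fun N => (h1 N).le))
    (le_of_forall_pr (isClosed_conj_smul hQ0.1 _) (fun N => (h1 N).ge))

theorem invariant_syl_unique {E K Q1 Q2 : Subgroup G} (hK : IsClosed (K : Set G))
    (hE : IsPGroup p E) (hEK : ∀ e ∈ E, MulAut.conj e • K = K) (hpK : PrimeTo p K)
    (hCK : ∀ k ∈ K, (∀ e ∈ E, e * k * e⁻¹ = k) → k = 1)
    (h1 : Syl q Q1 K) (h2 : Syl q Q2 K) (h1' : ∀ e ∈ E, MulAut.conj e • Q1 = Q1)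
    (h2' : ∀ e ∈ E, MulAut.conj e • Q2 = Q2) : Q1 = Q2 := by
  obtain ⟨k0, hk0, he0⟩ := Syl.exists_conj hK h1 h2
  set R : Subgroup G := K ⊓ stab Q1 with hR
  have hRc : IsClosed (R : Set G) := hK.inter (isClosed_stab h1.1)
  have hinv : ∀ e ∈ E, ∀ y, k0⁻¹ * y ∈ R → k0⁻¹ * (e * y * e⁻¹) ∈ R := by
    intro e he y hy
    have hyK : y ∈ K := by simpa using K.mul_mem hk0 hy.1
    have heyK : e * y * e⁻¹ ∈ K := by
      have : e * y * e⁻¹ ∈ MulAut.conj e • K := by rw [mem_conj_smul]; simpa [mul_assoc] using hyK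
      rwa [hEK e he] at this
    refine ⟨K.mul_mem (K.inv_mem hk0) heyK, ?_⟩
    have hy2 : MulAut.conj (k0⁻¹ * y) • Q1 = Q1 := hy.2
    rw [map_mul, mul_smul, map_inv, inv_smul_eq_iff, he0] at hy2
    show MulAut.conj (k0⁻¹ * (e * y * e⁻¹)) • Q1 = Q1
    rw [map_mul, mul_smul, map_inv, inv_smul_eq_iff, he0, map_mul, map_mul, mul_smul, mul_smul,
      h1' e⁻¹ (E.inv_mem he), hy2, h2' e he]
  obtain ⟨y, hy⟩ := exists_mem_all
    (X := fun N => {y | k0⁻¹ * y ∈ R} ∩ ⋂ e ∈ (E : Set G), {y | (e * y * e⁻¹)⁻¹ * y ∈ N.toSubgroup})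
    (by
      rintro N M hNM y ⟨hyR, hy⟩
      refine ⟨hyR, ?_⟩
      simp only [Set.mem_iInter] at hy ⊢
      intro e he
      exact hNM (hy e he))
    (by
      intro N
      obtain ⟨y, hy1, hy2⟩ := exists_fixed_in_coset (E := E.map (pr N)) (R := R.map (pr N))
        (k := pr N k0) (hE.map _) ((hpK.mono inf_le_left) N) (by
          rintro _ ⟨e, he, rfl⟩ y ⟨r, hr, hry⟩
          have hy : y = pr N (k0 * r) := by
            rw [map_mul, hry]; simp
          have := hinv e he (k0 * r) (by simpa using hr)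
          refine ⟨_, this, ?_⟩
          rw [hy]
          simp)
      obtain ⟨r, hr, hry⟩ := hy1
      have hy : y = pr N (k0 * r) := by
        rw [map_mul, hry]; simp
      refine ⟨k0 * r, by simpa using hr, ?_⟩
      simp only [Set.mem_iInter]
      intro e he
      show (e * (k0 * r) * e⁻¹)⁻¹ * (k0 * r) ∈ N.toSubgroup
      have h3 := hy2 _ ⟨e, he, rfl⟩
      rw [hy] at h3
      apply QuotientGroup.eq.1
      simpa using h3)
    (by
      intro N
      refine IsClosed.inter (hRc.preimage (by fun_prop)) (isClosed_biInter fun e _ => ?_)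
      exact (Subgroup.isClosed_of_isOpen _ N.isOpen').preimage
        (by fun_prop : Continuous fun y : G => (e * y * e⁻¹)⁻¹ * y))
  have hyR : k0⁻¹ * y ∈ R := (hy ⟨⟨⊤, isOpen_univ⟩, inferInstance⟩).1
  have hyK : y ∈ K := by simpa using K.mul_mem hk0 hyR.1
  have hyc : ∀ e ∈ E, e * y * e⁻¹ = y := by
    intro e he
    have : (e * y * e⁻¹)⁻¹ * y = 1 := eq_one_of_forall (fun N => by
      have := (hy N).2
      simp only [Set.mem_iInter] at this
      exact this e he)
    exact inv_mul_eq_one.1 this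
  have hy1 : y = 1 := hCK y hyK hyc
  have hy2 : MulAut.conj (k0⁻¹ * y) • Q1 = Q1 := hyR.2
  rw [map_mul, mul_smul, map_inv, inv_smul_eq_iff, he0, hy1, map_one, one_smul] at hy2
  exact hy2

end Pool.Agent.MP_c2f9c6
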