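import Mathlib

set_option autoImplicit false

namespace Pool.Agent.MP_c2f9c6

/-- `G` satisfies the maximum condition for closed subgroups: every nonempty family of closed
subgroups has a maximal element with respect to inclusion. -/
def MaxClosed (G : Type*) [Group G] [TopologicalSpace G] : Prop :=
  ∀ S : Set (ClosedSubgroup G), S.Nonempty → ∃ H : ClosedSubgroup G, Maximal (· ∈ S) H

/-- `G` is a pro-`p` group: every open normal subgroup has index a power of `p`
(to be used for profinite groups `G`). -/
def IsProP (p : ℕ) (G : Type*) [Group G] [TopologicalSpace G] : Prop :=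
  ∀ N : Subgroup G, N.Normal → IsOpen (N : Set G) → ∃ k : ℕ, N.index = p ^ k

/-- Every closed subgroup of `G` is topologically finitely generated. -/
def AllClosedFG (G : Type*) [Group G] [TopologicalSpace G] : Prop :=
  ∀ K : Subgroup G, IsClosed (K : Set G) →
    ∃ s : Set G, s.Finite ∧ (K : Set G) = closure (Subgroup.closure s : Set G)

end Pool.Agent.MP_c2f9c6
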