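import Pool.Agent.Lib.MP_c2f9c6_al.Coprime

set_option autoImplicit false

namespace Pool.Agent.MP_c2f9c6

open Pointwise

variable {G : Type*} [Group G] [TopologicalSpace G]

theorem conj_smul_eq_iff {K : Subgroup G} {m : G} (h : ∀ x ∈ K, m * x * m⁻¹ ∈ K)
    (h' : ∀ x ∈ K, m⁻¹ * x * m ∈ K) : MulAut.conj m • K = K := by
  ext x
  rw [mem_conj_smul]
  constructor
  · intro hx
    simpa [mul_assoc] using h _ hx
  · intro hx
    exact h' x hx

theorem conj_smul_eq_of_normal (K : Subgroup G) [hK : K.Normal] (m : G) : MulAut.conj m • K = K :=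
  conj_smul_eq_iff (fun x hx => hK.conj_mem x hx m) (fun x hx => by
    simpa using hK.conj_mem x hx m⁻¹)

theorem conj_smul_eq_of_mem {K : Subgroup G} {m : G} (hm : m ∈ K) : MulAut.conj m • K = K :=
  conj_smul_eq_iff (fun x hx => K.mul_mem (K.mul_mem hm hx) (K.inv_mem hm))
    (fun x hx => K.mul_mem (K.mul_mem (K.inv_mem hm) hx) hm)

/-- If `M` is a finite soluble subgroup normalising the finite `q`-group `Q`, then `M Q` is
finite and soluble. -/
theorem finite_solvable_sup {H : Type*} [Group H] {M Q : Subgroup H} {q : ℕ} [Fact q.Prime]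
    [Finite M] [Finite Q] [Group.IsSolvable M] (hQ : IsPGroup q Q)
    (hMQ : ∀ m ∈ M, MulAut.conj m • Q = Q) :
    Finite (M ⊔ Q : Subgroup H) ∧ Group.IsSolvable (M ⊔ Q : Subgroup H) := by
  have hle : M ≤ Subgroup.normalizer (Q : Set H) := by
    intro m hm
    rw [Subgroup.mem_normalizer_iff]
    intro x
    have := hMQ m hm
    constructor
    · intro hx
      rw [← this, mem_conj_smul]
      simpa [mul_assoc] using hx
    · intro hx
      rw [← this, mem_conj_smul] at hx
      simpa [mul_assoc] using hx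
  have hcoe : ((M ⊔ Q : Subgroup H) : Set H) = (M : Set H) * (Q : Set H) :=
    Subgroup.coe_mul_of_left_le_normalizer_right M Q hle
  have hfin : Finite (M ⊔ Q : Subgroup H) := by
    have h1 : ((M : Set H) * (Q : Set H)).Finite :=
      Set.Finite.mul (Set.toFinite _) (Set.toFinite _)
    rw [← hcoe] at h1
    exact h1.to_subtype
  refine ⟨hfin, ?_⟩
  set T : Subgroup H := M ⊔ Q with hT
  have hQT : (Q.subgroupOf T).Normal := by
    rw [Subgroup.normal_subgroupOf_iff_le_normalizer le_sup_right]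
    exact sup_le hle Subgroup.le_normalizer
  have hsolQ : Group.IsSolvable (Q.subgroupOf T) := by
    have hp : IsPGroup q (Q.subgroupOf T) := hQ.comap_subtype
    have : Group.IsNilpotent (Q.subgroupOf T) := hp.isNilpotent
    infer_instance
  have hsolT : Group.IsSolvable (T ⧸ Q.subgroupOf T) := by
    let f : M →* T ⧸ Q.subgroupOf T :=
      (QuotientGroup.mk' (Q.subgroupOf T)).comp (Subgroup.inclusion le_sup_left)
    refine Group.isSolvable_of_surjective (f := f) ?_
    intro y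
    obtain ⟨⟨t, ht⟩, rfl⟩ := QuotientGroup.mk'_surjective _ y
    have ht' : t ∈ (M : Set H) * (Q : Set H) := by rw [← hcoe]; exact ht
    obtain ⟨m, hm, x, hx, rfl⟩ := Set.mem_mul.1 ht'
    refine ⟨⟨m, hm⟩, ?_⟩
    apply QuotientGroup.eq.2
    rw [Subgroup.mem_subgroupOf]
    simpa using hx
  exact (Group.isSolvable_iff_subgroup_quotient (Q.subgroupOf T)).2 ⟨hsolQ, hsolT⟩

variable [IsTopologicalGroup G] [CompactSpace G] [TotallyDisconnectedSpace G]

theorem exists_primeTo_finset (hp : ∀ p : ℕ, p.Prime → ∃ N : OpenNormalSubgroup G,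
    PrimeTo p N.toSubgroup) (s : Finset ℕ) (hs : ∀ p ∈ s, p.Prime) :
    ∃ N : OpenNormalSubgroup G, ∀ p ∈ s, PrimeTo p N.toSubgroup := by
  classical
  induction s using Finset.induction_on with
  | empty => exact ⟨⟨⟨⊤, isOpen_univ⟩, inferInstance⟩, by simp⟩
  | insert a s ha ih =>
    obtain ⟨N, hN⟩ := ih (fun p hp => hs p (Finset.mem_insert_of_mem hp))
    obtain ⟨M, hM⟩ := hp a (hs a (Finset.mem_insert_self _ _))
    refine ⟨N ⊓ M, fun p hp => ?_⟩
    rcases Finset.mem_insert.1 hp with rfl | h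
    · exact hM.mono (inf_le_right : N ⊓ M ≤ M)
    · exact (hN p h).mono (inf_le_left : N ⊓ M ≤ N)

/-- The key step: an `M`-invariant nontrivial Sylow subgroup `Q` of some closed `K ≤ N`. -/
theorem exists_Q (hG : MaxClosed G) {M : Subgroup G} [Finite M] [Group.IsSolvable M]
    (N : OpenNormalSubgroup G) (hN : N.toSubgroup ≠ ⊥)
    (hNM : ∀ p : ℕ, p.Prime → p ∣ Nat.card M → PrimeTo p N.toSubgroup) :
    ∃ (q : ℕ) (_ : q.Prime) (Q : Subgroup G), Q ≠ ⊥ ∧ Q ≤ N.toSubgroup ∧
      IsClosed (Q : Set G) ∧ (∀ W : OpenNormalSubgroup G, IsPGroup q (Q.map (pr W))) ∧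
      ∀ m ∈ M, MulAut.conj m • Q = Q := by
  classical
  have hMc : IsClosed (M : Set G) := (Set.toFinite (M : Set G)).isClosed
  -- the family
  let X : Set (ClosedSubgroup G) := {L | (L : Subgroup G) ≤ M ∧
    (∀ m ∈ M, MulAut.conj m • (L : Subgroup G) = L) ∧
    ∃ x ∈ N.toSubgroup, x ≠ 1 ∧ ∀ l ∈ (L : Subgroup G), l * x * l⁻¹ = x}
  have hX : X.Nonempty := by
    obtain ⟨x, hx, hx1⟩ := (Subgroup.bot_or_exists_ne_one N.toSubgroup).resolve_left hN
    refine ⟨⟨⊥, by show IsClosed ((⊥ : Subgroup G) : Set G); simp⟩, bot_le, ?_, x, hx, hx1, ?_⟩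
    · intro m _
      exact Subgroup.smul_bot _
    · intro l hl
      have : l = 1 := by simpa using hl
      simp [this]
  obtain ⟨L, hL, hmax⟩ := hG X hX
  set L0 : Subgroup G := L.toSubgroup with hL0
  obtain ⟨hLM', hLn', x0, hx0, hx01, hx0L'⟩ := hL
  have hLM : L0 ≤ M := hLM'
  have hLn : ∀ m ∈ M, MulAut.conj m • L0 = L0 := hLn'
  have hx0L : ∀ l ∈ L0, l * x0 * l⁻¹ = x0 := hx0L'
  set K : Subgroup G := N.toSubgroup ⊓ Subgroup.centralizer (L0 : Set G) with hKdef
  have hKc : IsClosed (K : Set G) :=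
    (Subgroup.isClosed_of_isOpen _ N.isOpen').inter (Set.isClosed_centralizer _)
  have hmemK : ∀ x, x ∈ K ↔ x ∈ N.toSubgroup ∧ ∀ l ∈ L0, l * x * l⁻¹ = x := by
    intro x
    rw [hKdef, Subgroup.mem_inf, Subgroup.mem_centralizer_iff]
    refine and_congr_right fun _ => forall₂_congr fun l _ => ?_
    constructor
    · intro h; rw [h]; simp
    · intro h; nth_rewrite 2 [← h]; simp
  have hKn : ∀ m ∈ M, MulAut.conj m • K = K := by
    have haux : ∀ m ∈ M, ∀ x ∈ K, m * x * m⁻¹ ∈ K := by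
      intro m hm x hx
      rw [hmemK] at hx ⊢
      refine ⟨N.isNormal'.conj_mem x hx.1 m, fun l hl => ?_⟩
      have h1 : m⁻¹ * l * m ∈ L0 := by
        have h2 := hLn m hm
        rw [← h2, mem_conj_smul] at hl
        exact hl
      have h3 := hx.2 _ h1
      calc l * (m * x * m⁻¹) * l⁻¹ = m * (m⁻¹ * l * m * x * (m⁻¹ * l * m)⁻¹) * m⁻¹ := by group
        _ = m * x * m⁻¹ := by rw [h3]
    intro m hm
    exact conj_smul_eq_iff (haux m hm) (fun x hx => by
      simpa using haux m⁻¹ (M.inv_mem hm) x hx)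
  have hKne : K ≠ ⊥ := by
    intro h
    have : x0 ∈ K := (hmemK x0).2 ⟨hx0, hx0L⟩
    rw [h, Subgroup.mem_bot] at this
    exact hx01 this
  -- a prime `q`
  obtain ⟨q, hq, W, hqW⟩ : ∃ q : ℕ, q.Prime ∧ ∃ W : OpenNormalSubgroup G,
      q ∣ Nat.card (K.map (pr W)) := by
    obtain ⟨x, hx, hx1⟩ := (Subgroup.bot_or_exists_ne_one K).resolve_left hKne
    have : ∃ W : OpenNormalSubgroup G, x ∉ W := by
      by_contra hcon
      push Not at hcon
      exact hx1 (eq_one_of_forall hcon)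
    obtain ⟨W, hW⟩ := this
    have h1 : Nat.card (K.map (pr W)) ≠ 1 := by
      rw [Ne, Subgroup.card_eq_one]
      intro h
      have h2 : pr W x ∈ K.map (pr W) := ⟨x, hx, rfl⟩
      rw [h, Subgroup.mem_bot] at h2
      exact hW ((QuotientGroup.eq_one_iff x).1 h2)
    obtain ⟨q, hq, hqd⟩ := Nat.exists_prime_and_dvd h1
    exact ⟨q, hq, W, hqd⟩
  have : Fact q.Prime := ⟨hq⟩
  -- it is enough to find an invariant Sylow subgroup
  suffices h : ∃ Q, Syl q Q K ∧ ∀ m ∈ M, MulAut.conj m • Q = Q by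
    obtain ⟨Q, hQ, hQM⟩ := h
    refine ⟨q, hq, Q, ?_, (hQ.le hKc).trans inf_le_left, hQ.1, fun W => (hQ.2 W).2.1, hQM⟩
    rintro rfl
    apply (hQ.2 W).2.2
    rw [Subgroup.map_bot, Subgroup.relIndex_bot_left]
    exact hqW
  by_cases hcase : L0 = M
  · obtain ⟨Q, hQ⟩ := exists_syl (p := q) hKc
    refine ⟨Q, hQ, fun m hm => ?_⟩
    have hQK := hQ.le hKc
    have hcomm : ∀ x ∈ Q, m * x * m⁻¹ = x := fun x hx => ((hmemK x).1 (hQK hx)).2 m (hcase ▸ hm)
    refine conj_smul_eq_iff (fun x hx => by rw [hcomm x hx]; exact hx) (fun x hx => ?_)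
    have h1 : m⁻¹ * x * m = x := by
      have := hcomm x hx
      have h2 : m * x = x * m := by
        nth_rewrite 2 [← this]; simp
      rw [mul_assoc, ← h2]; simp
    rw [h1]; exact hx
  · -- layer
    have hLnorm : (L0.subgroupOf M).Normal := by
      refine ⟨fun x hx g => ?_⟩
      rw [Subgroup.mem_subgroupOf] at hx ⊢
      have := hLn g g.2
      rw [← this, mem_conj_smul]
      simpa [mul_assoc] using hx
    have hLtop : L0.subgroupOf M ≠ ⊤ := by
      intro h
      exact hcase (le_antisymm hLM (Subgroup.subgroupOf_eq_top.1 h))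
    obtain ⟨p, hp, L', E, hL'n, hLL', hE, hL'⟩ := exists_layer (L0.subgroupOf M) hLtop
    have : Fact p.Prime := ⟨hp⟩
    set E1 : Subgroup G := E.map M.subtype with hE1
    set L1 : Subgroup G := L'.map M.subtype with hL1
    have hL1eq : L1 = L0 ⊔ E1 := by
      rw [hL1, hL', Subgroup.map_sup, Subgroup.subgroupOf_map_subtype, inf_eq_left.2 hLM]
    have hE1M : E1 ≤ M := Subgroup.map_subtype_le _
    have hL1M : L1 ≤ M := Subgroup.map_subtype_le _
    have hE1p : IsPGroup p E1 := hE.map _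
    have hL1f : Finite L1 :=
      Finite.of_injective (Subgroup.inclusion hL1M) (Subgroup.inclusion_injective _)
    have hL1c : IsClosed (L1 : Set G) := (Set.toFinite (L1 : Set G)).isClosed
    have hpM : p ∣ Nat.card M := by
      have h1 : E ≠ ⊥ := by
        rintro rfl
        rw [sup_bot_eq] at hL'
        exact hLL'.ne' hL'
      have h2 : p ∣ Nat.card E := by
        rcases hE.card_eq_or_dvd with h | h
        · exact absurd (Subgroup.card_eq_one.1 h) h1
        · exact h
      exact h2.trans (Subgroup.card_subgroup_dvd_card _)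
    have hpK : PrimeTo p K := (hNM p hp hpM).mono inf_le_left
    -- maximality of `L`
    have hC1 : ∀ x ∈ N.toSubgroup, (∀ l ∈ L1, l * x * l⁻¹ = x) → x = 1 := by
      intro x hx hxl
      by_contra hx1
      have hmem : (⟨L1, hL1c⟩ : ClosedSubgroup G) ∈ X := by
        refine ⟨hL1M, ?_, x, hx, hx1, hxl⟩
        intro m hm
        have haux : ∀ m ∈ M, ∀ y ∈ L1, m * y * m⁻¹ ∈ L1 := by
          rintro m hm _ ⟨y, hy, rfl⟩
          exact ⟨⟨m, hm⟩ * y * ⟨m, hm⟩⁻¹, hL'n.conj_mem y hy ⟨m, hm⟩, by simp⟩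
        exact conj_smul_eq_iff (haux m hm) (fun y hy => by
          simpa using haux m⁻¹ (M.inv_mem hm) y hy)
      have h1 : L ≤ ⟨L1, hL1c⟩ := by
        show L0 ≤ L1
        rw [hL1eq]; exact le_sup_left
      have h2 : L1 ≤ L0 := hmax hmem h1
      apply hLL'.not_ge
      intro y hy
      rw [Subgroup.mem_subgroupOf]
      exact h2 ⟨y, hy, rfl⟩
    have hCK : ∀ k ∈ K, (∀ e ∈ E1, e * k * e⁻¹ = k) → k = 1 := by
      intro k hk hke
      refine hC1 k ((hmemK k).1 hk).1 ?_
      have : L1 ≤ (MulAction.stabilizer (MulAut G) k).comap MulAut.conj := by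
        rw [hL1eq]
        refine sup_le (fun l hl => ?_) (fun e he => ?_)
        · exact ((hmemK k).1 hk).2 l hl
        · exact hke e he
      intro l hl
      exact this hl
    have hEK : ∀ e ∈ E1, MulAut.conj e • K = K := fun e he => hKn e (hE1M he)
    obtain ⟨Q, hQ, hQE⟩ := exists_invariant_syl (q := q) hKc hE1p hEK hpK
    refine ⟨Q, hQ, fun m hm => ?_⟩
    have hQm : Syl q (MulAut.conj m • Q) K := hQ.smul (hKn m hm)
    refine invariant_syl_unique (p := p) (q := q) hKc hE1p hEK hpK hCK hQm hQ ?_ hQE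
    -- invariance of the conjugate
    have hst : L1 ≤ stab Q := by
      rw [hL1eq]
      refine sup_le (fun l hl => ?_) (fun e he => hQE e he)
      have hcomm : ∀ x ∈ Q, l * x * l⁻¹ = x := fun x hx => ((hmemK x).1 (hQ.le hKc hx)).2 l hl
      have hcomm' : ∀ x ∈ Q, l⁻¹ * x * l = x := fun x hx => by
        have := ((hmemK x).1 (hQ.le hKc hx)).2 l⁻¹ (L0.inv_mem hl)
        simpa using this
      exact conj_smul_eq_iff (fun x hx => by rw [hcomm x hx]; exact hx)
        (fun x hx => by rw [hcomm' x hx]; exact hx)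
    intro e he
    have h1 : m⁻¹ * e * m ∈ L1 := by
      have he' : e ∈ L1 := by rw [hL1eq]; exact (le_sup_right : E1 ≤ _) he
      obtain ⟨y, hy, rfl⟩ := he'
      refine ⟨⟨m, hm⟩⁻¹ * y * ⟨m, hm⟩, ?_, by simp⟩
      have := hL'n.conj_mem y hy (⟨m, hm⟩⁻¹ : M)
      simpa using this
    have h2 : MulAut.conj (m⁻¹ * e * m) • Q = Q := hst h1
    calc MulAut.conj e • MulAut.conj m • Q
        = MulAut.conj (m * (m⁻¹ * e * m)) • Q := by
          rw [← mul_smul, ← map_mul]; congr 2; group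
      _ = MulAut.conj m • Q := by rw [map_mul, mul_smul, h2]

/-- A profinite group with the maximum condition on closed subgroups in which every prime `p`
has an open normal subgroup of order prime to `p` is finite. -/
theorem finite_of_primeTo (hG : MaxClosed G)
    (hp : ∀ p : ℕ, p.Prime → ∃ N : OpenNormalSubgroup G, PrimeTo p N.toSubgroup) : Finite G := by
  classical
  let X : Set (ClosedSubgroup G) := {H | Finite (H : Subgroup G) ∧
    Group.IsSolvable (H : Subgroup G)}
  have hX : X.Nonempty := ⟨⟨⊥, by show IsClosed ((⊥ : Subgroup G) : Set G); simp⟩, by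
    constructor
    · show Finite (⊥ : Subgroup G); infer_instance
    · show Group.IsSolvable (⊥ : Subgroup G); infer_instance⟩
  obtain ⟨M', hM', hmax⟩ := hG X hX
  set M : Subgroup G := M'.toSubgroup with hM
  have hfin : Finite M := hM'.1
  have hsol : Group.IsSolvable M := hM'.2
  obtain ⟨N, hN⟩ := exists_primeTo_finset hp (Nat.card M).primeFactors
    (fun p hp => Nat.prime_of_mem_primeFactors hp)
  by_cases hNbot : N.toSubgroup = ⊥
  · refine Finite.of_injective (pr N) ?_
    intro x y hxy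
    have h2 : x⁻¹ * y ∈ N.toSubgroup := QuotientGroup.eq.1 hxy
    rw [hNbot, Subgroup.mem_bot] at h2
    exact inv_mul_eq_one.1 h2
  exfalso
  have hNM : ∀ p : ℕ, p.Prime → p ∣ Nat.card M → PrimeTo p N.toSubgroup := fun p hp hd =>
    hN p (Nat.mem_primeFactors.2 ⟨hp, hd, Nat.card_pos.ne'⟩)
  obtain ⟨q, hq, Q, hQne, hQN, hQc, hQp, hQM⟩ := exists_Q hG (M := M) N hNbot hNM
  have : Fact q.Prime := ⟨hq⟩
  obtain ⟨Nq, hNq⟩ := hp q hq
  have hQfin : Finite Q := finite_of_primeTo_open hQp hNq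
  have hQgrp : IsPGroup q Q := by
    -- `Q` embeds in a finite quotient
    obtain ⟨W, hW⟩ : ∃ W : OpenNormalSubgroup G, Function.Injective (fun x : Q => pr W x.1) := by
      have h0 : Q ⊓ Nq.toSubgroup = ⊥ := by
        apply eq_bot_of_primeTo (q := q)
        · intro N
          exact (hQp N).to_le (Subgroup.map_mono inf_le_left)
        · exact hNq.mono inf_le_right
      refine ⟨Nq, ?_⟩
      intro x y hxy
      have h2 : x.1⁻¹ * y.1 ∈ Nq.toSubgroup := QuotientGroup.eq.1 hxy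
      have h3 : x.1⁻¹ * y.1 ∈ Q ⊓ Nq.toSubgroup := ⟨Q.mul_mem (Q.inv_mem x.2) y.2, h2⟩
      rw [h0, Subgroup.mem_bot] at h3
      exact Subtype.ext (inv_mul_eq_one.1 h3)
    refine (hQp W).of_injective ((pr W).subgroupMap Q) ?_
    intro x y hxy
    exact hW (congrArg Subtype.val hxy)
  obtain ⟨h1, h2⟩ := finite_solvable_sup hQgrp hQM
  have hMQc : IsClosed ((M ⊔ Q : Subgroup G) : Set G) :=
    (Set.toFinite ((M ⊔ Q : Subgroup G) : Set G)).isClosed
  have hmem : (⟨M ⊔ Q, hMQc⟩ : ClosedSubgroup G) ∈ X := ⟨h1, h2⟩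
  have hle : M ⊔ Q ≤ M := hmax hmem (show M ≤ M ⊔ Q from le_sup_left)
  have hQM' : Q ≤ M := le_sup_right.trans hle
  -- `q` divides `|M|`
  have hqM : q ∣ Nat.card M := by
    have h3 : q ∣ Nat.card Q := by
      rcases hQgrp.card_eq_or_dvd with h | h
      · exact absurd (Subgroup.card_eq_one.1 h) hQne
      · exact h
    exact h3.trans (Subgroup.card_dvd_of_le hQM')
  exact hQne (eq_bot_of_primeTo hQp ((hNM q hq hqM).mono hQN))

end Pool.Agent.MP_c2f9c6
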