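import Pool.Agent.Lib.MP_c2f9c6_al.Quot

set_option autoImplicit false

namespace Pool.Agent.MP_c2f9c6

open Pointwise

variable {G : Type*} [Group G] [TopologicalSpace G] [IsTopologicalGroup G] [CompactSpace G]
  [TotallyDisconnectedSpace G]

theorem isOpen_of_quotient_finite {F : Subgroup G} (hF : IsClosed (F : Set G)) [Finite (G ⧸ F)] :
    IsOpen (F : Set G) := by
  have : F.FiniteIndex := Subgroup.finiteIndex_of_finite_quotient
  exact Subgroup.isOpen_of_isClosed_of_finiteIndex F hF

theorem forward (hG : MaxClosed G) : ∃ (S : Finset ℕ) (F : S → Subgroup G),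
    (∀ p : S, (p : ℕ).Prime ∧ (F p).Normal ∧ IsClosed (F p : Set G) ∧ IsProP p (F p) ∧
      MaxClosed (F p)) ∧
    ∃ hcomm : Pairwise fun p q : S => ∀ x y : G, x ∈ F p → y ∈ F q → Commute x y,
      Function.Injective (Subgroup.noncommPiCoprod hcomm) ∧
        IsOpen ((Subgroup.noncommPiCoprod hcomm).range : Set G) := by
  classical
  have hex : ∀ p : ℕ, ∃ F : Subgroup G, F.Normal ∧ IsClosed (F : Set G) ∧
      (p.Prime → (∀ W : OpenNormalSubgroup G, IsPGroup p (F.map (pr W))) ∧
        ∃ N : OpenNormalSubgroup G, Syl p F N.toSubgroup) ∧ (¬ p.Prime → F = ⊥) := by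
    intro p
    by_cases hp : p.Prime
    · have : Fact p.Prime := ⟨hp⟩
      obtain ⟨N, F, hF, hN⟩ := exists_normal_syl (p := p) hG
      exact ⟨F, hF, hN.1, fun _ => ⟨fun W => (hN.2 W).2.1, N, hN⟩, fun h => absurd hp h⟩
    · exact ⟨⊥, inferInstance, by simp, fun h => absurd h hp, fun _ => rfl⟩
  choose F hFn hFc hFp hFbot using hex
  -- maximal finite join
  obtain ⟨_, ⟨S0, rfl⟩, hmax⟩ := hG (Set.range fun S : Finset ℕ =>
    (⟨S.sup F, isClosed_finset_sup S F hFn hFc⟩ : ClosedSubgroup G)) ⟨_, ∅, rfl⟩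
  set T : Subgroup G := S0.sup F with hT
  have hTc : IsClosed (T : Set G) := isClosed_finset_sup S0 F hFn hFc
  have hTn : T.Normal := normal_finset_sup S0 F hFn
  have hFT : ∀ p, F p ≤ T := by
    intro p
    have h1 : (⟨S0.sup F, hTc⟩ : ClosedSubgroup G) ≤
        ⟨(insert p S0).sup F, isClosed_finset_sup _ F hFn hFc⟩ := by
      show S0.sup F ≤ (insert p S0).sup F
      rw [Finset.sup_insert]; exact le_sup_right
    have h2 : (insert p S0).sup F ≤ S0.sup F := hmax ⟨_, rfl⟩ h1
    rw [Finset.sup_insert] at h2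
    exact le_sup_left.trans h2
  have hprime_sup : ∀ p : ℕ, p.Prime → ∀ S : Finset ℕ, (∀ q ∈ S, q.Prime ∧ q ≠ p) →
      PrimeTo p (S.sup F) := by
    intro p hp S hS
    refine primeTo_finset_sup hp S F hFn (fun q hq => ?_)
    exact primeTo_of_proP hp (hS q hq).1 (hS q hq).2.symm (hFp q (hS q hq).1).1
  -- the quotient is finite
  have hfin : Finite (G ⧸ T) := by
    have := totallyDisconnected_quotient T hTc
    refine finite_of_primeTo (hG.quotient T) ?_
    intro p hp
    obtain ⟨-, N, hN⟩ := hFp p hp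
    have hNo : IsOpen ((N.toSubgroup.map (QuotientGroup.mk' T) : Subgroup (G ⧸ T)) : Set (G ⧸ T)) :=
      QuotientGroup.isOpenMap_coe (N := T) (N.toSubgroup : Set G) N.isOpen'
    have hNn : (N.toSubgroup.map (QuotientGroup.mk' T)).Normal :=
      Subgroup.Normal.map inferInstance _ (QuotientGroup.mk'_surjective _)
    refine ⟨⟨⟨N.toSubgroup.map (QuotientGroup.mk' T), hNo⟩, hNn⟩, ?_⟩
    intro W hd
    let W' : OpenNormalSubgroup G :=
      ⟨⟨W.toSubgroup.comap (QuotientGroup.mk' T), W.isOpen'.preimage QuotientGroup.continuous_mk⟩,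
        Subgroup.Normal.comap W.isNormal' _⟩
    have hTW : T ≤ W'.toSubgroup := by
      intro x hx
      show QuotientGroup.mk' T x ∈ W.toSubgroup
      have h1 : QuotientGroup.mk' T x = 1 := (QuotientGroup.eq_one_iff x).2 hx
      rw [h1]; exact W.toSubgroup.one_mem
    have hcard : Nat.card ((N.toSubgroup.map (QuotientGroup.mk' T)).map (pr W)) =
        Nat.card (N.toSubgroup.map (pr W')) := by
      rw [Subgroup.map_map, ← Subgroup.relIndex_ker, ← Subgroup.relIndex_ker]
      congr 1
      rw [QuotientGroup.ker_mk', ← MonoidHom.comap_ker, QuotientGroup.ker_mk']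
    rw [hcard] at hd
    apply (hN.2 W').2.2
    have hFbot' : (F p).map (pr W') = ⊥ := by
      rw [Subgroup.map_eq_bot_iff, QuotientGroup.ker_mk']
      exact (hFT p).trans hTW
    rw [hFbot', Subgroup.relIndex_bot_left]
    exact hd
  have hTo : IsOpen (T : Set G) := isOpen_of_quotient_finite hTc
  -- restrict to the primes of `S0`
  let S := S0.filter Nat.Prime
  have hSp : ∀ p : S, (p : ℕ).Prime := fun p => (Finset.mem_filter.1 p.2).2
  have hdisj : ∀ p : S, Disjoint (F p) ((S.erase p).sup F) := by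
    intro p
    have : Fact (p : ℕ).Prime := ⟨hSp p⟩
    rw [disjoint_iff]
    apply eq_bot_of_primeTo (q := (p : ℕ))
    · intro W
      exact ((hFp p (hSp p)).1 W).to_le (Subgroup.map_mono inf_le_left)
    · refine (hprime_sup p (hSp p) (S.erase p) ?_).mono inf_le_right
      intro q hq
      exact ⟨(Finset.mem_filter.1 (Finset.mem_of_mem_erase hq)).2, Finset.ne_of_mem_erase hq⟩
  have hcomm : Pairwise fun p q : S => ∀ x y : G, x ∈ F p → y ∈ F q → Commute x y := by
    intro p q hpq x y hx hy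
    have hd : Disjoint (F p) (F q) := (hdisj p).mono_right
      (Finset.le_sup (f := F) (Finset.mem_erase.2 ⟨fun h => hpq (Subtype.ext h.symm), q.2⟩))
    exact Subgroup.commute_of_normal_of_disjoint _ _ (hFn p) (hFn q) hd x y hx hy
  have hind : iSupIndep fun p : S => F p := by
    intro p
    refine (hdisj p).mono_right ?_
    refine iSup₂_le fun q hq => ?_
    exact Finset.le_sup (f := F) (Finset.mem_erase.2 ⟨fun h => hq (Subtype.ext h), q.2⟩)
  refine ⟨S, fun p => F p, ?_, hcomm, Subgroup.injective_noncommPiCoprod_of_iSupIndep hind,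
    ?_⟩
  · intro p
    have : Fact (p : ℕ).Prime := ⟨hSp p⟩
    exact ⟨hSp p, hFn p, hFc p, isProP_of (hFp p (hSp p)).1, hG.subgroup (hFc p)⟩
  · rw [Subgroup.noncommPiCoprod_range]
    refine Subgroup.isOpen_mono ?_ hTo
    refine Finset.sup_le fun p hp => ?_
    by_cases hpp : p.Prime
    · exact le_iSup (fun q : S => F q) ⟨p, Finset.mem_filter.2 ⟨hp, hpp⟩⟩
    · rw [hFbot p hpp]; exact bot_le

end Pool.Agent.MP_c2f9c6
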