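import Pool.Agent.Lib.MP_c2f9c6_al.Backward

set_option autoImplicit false

namespace Pool.Agent.MP_c2f9c6

/-- A proper subgroup of a finite `p`-group is contained in a normal subgroup of index `p`. -/
theorem exists_index_p {H : Type*} [Group H] [Finite H] {p : ℕ} [Fact p.Prime]
    (hH : IsPGroup p H) {A : Subgroup H} (hA : A ≠ ⊤) :
    ∃ M : Subgroup H, A ≤ M ∧ M.Normal ∧ M.index = p := by
  obtain ⟨M, hM, hAM⟩ := (eq_top_or_exists_le_coatom A).resolve_left hA
  have hnil : Group.IsNilpotent H := hH.isNilpotent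
  have hnorm : M.Normal := Subgroup.NormalizerCondition.normal_of_coatom M
    normalizerCondition_of_isNilpotent hM
  refine ⟨M, hAM, hnorm, ?_⟩
  have hq : IsPGroup p (H ⧸ M) := hH.to_quotient M
  have hnt : Nontrivial (H ⧸ M) := QuotientGroup.nontrivial_iff.2 hM.1
  have hdvd : p ∣ Nat.card (H ⧸ M) := by
    rcases hq.card_eq_or_dvd with h | h
    · have := (Nat.card_eq_one_iff_unique.1 h).1
      exact absurd hnt (not_nontrivial_iff_subsingleton.2 this)
    · exact h
  obtain ⟨x, hx⟩ := exists_prime_orderOf_dvd_card' (G := H ⧸ M) p hdvd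
  have hz : (Subgroup.zpowers x).comap (QuotientGroup.mk' M) = ⊤ := by
    apply hM.2
    refine lt_of_le_not_ge ?_ ?_
    · intro y hy
      have : QuotientGroup.mk' M y = 1 := (QuotientGroup.eq_one_iff y).2 hy
      show QuotientGroup.mk' M y ∈ Subgroup.zpowers x
      rw [this]; exact Subgroup.one_mem _
    · intro hle
      obtain ⟨y, rfl⟩ := QuotientGroup.mk'_surjective M x
      have h1 : y ∈ M := hle (Subgroup.mem_zpowers (QuotientGroup.mk' M y))
      have h2 : QuotientGroup.mk' M y = 1 := (QuotientGroup.eq_one_iff y).2 h1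
      rw [h2, orderOf_one] at hx
      exact (Fact.out : p.Prime).one_lt.ne hx
  have hz' : Subgroup.zpowers x = ⊤ := by
    rw [eq_top_iff]
    intro z _
    obtain ⟨y, rfl⟩ := QuotientGroup.mk'_surjective M z
    have : y ∈ (Subgroup.zpowers x).comap (QuotientGroup.mk' M) := by rw [hz]; trivial
    exact this
  have : Nat.card (H ⧸ M) = p := by
    rw [← hx, ← Nat.card_zpowers, hz', Subgroup.card_top]
  exact this

variable {G : Type*} [Group G] [TopologicalSpace G] [IsTopologicalGroup G] [CompactSpace G]
  [TotallyDisconnectedSpace G] {p : ℕ}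

theorem IsProP.isPGroup (hG : IsProP p G) (W : OpenNormalSubgroup G) :
    IsPGroup p (G ⧸ W.toSubgroup) := by
  obtain ⟨k, hk⟩ := hG W.toSubgroup W.isNormal' W.isOpen'
  exact IsPGroup.of_card hk

theorem exists_open_index_p [Fact p.Prime] (hG : IsProP p G) {A : Subgroup G}
    (hA : IsClosed (A : Set G)) (hAt : A ≠ ⊤) :
    ∃ M : Subgroup G, A ≤ M ∧ M.Normal ∧ IsOpen (M : Set G) ∧ M.index = p := by
  have h1 : ∃ W : OpenNormalSubgroup G, A.map (pr W) ≠ ⊤ := by
    by_contra hcon
    push Not at hcon
    refine hAt (eq_top_iff.2 fun x _ => mem_of_forall_pr hA fun W => ?_)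
    rw [hcon W]; trivial
  obtain ⟨W, hW⟩ := h1
  obtain ⟨M, hM, hMn, hMi⟩ := exists_index_p (hG.isPGroup W) hW
  refine ⟨M.comap (pr W), Subgroup.map_le_iff_le_comap.1 hM, inferInstance, ?_, ?_⟩
  · have : DiscreteTopology (G ⧸ W.toSubgroup) := QuotientGroup.discreteTopology W.isOpen'
    exact (isOpen_discrete (M : Set (G ⧸ W.toSubgroup))).preimage QuotientGroup.continuous_mk
  · rw [Subgroup.index_comap_of_surjective _ (QuotientGroup.mk'_surjective _)]
    exact hMi

/-- A topologically finitely generated profinite group has finitely many open normal subgroups of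
index `p`. -/
theorem finite_index_p [Fact p.Prime] {s : Set G} (hs : s.Finite)
    (hd : closure (Subgroup.closure s : Set G) = Set.univ) :
    Finite {M : Subgroup G // M.Normal ∧ IsOpen (M : Set G) ∧ M.index = p} := by
  classical
  have hsf : Finite s := hs.to_subtype
  -- a homomorphism with kernel `M`
  have hex : ∀ M : {M : Subgroup G // M.Normal ∧ IsOpen (M : Set G) ∧ M.index = p},
      ∃ f : G →* Multiplicative (ZMod p), f.ker = M.1 := by
    rintro ⟨M, hM, hMo, hMi⟩
    have hc : Nat.card (G ⧸ M) = p := hMi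
    have hc' : Nat.card (Multiplicative (ZMod p)) = p := by
      rw [Nat.card_congr Multiplicative.toAdd]; exact Nat.card_zmod p
    let e : G ⧸ M ≃* Multiplicative (ZMod p) := mulEquivOfPrimeCardEq hc hc'
    refine ⟨e.toMonoidHom.comp (QuotientGroup.mk' M), ?_⟩
    ext x
    rw [MonoidHom.mem_ker]
    show e (QuotientGroup.mk' M x) = 1 ↔ _
    rw [map_eq_one_iff e e.injective]
    exact QuotientGroup.eq_one_iff x
  choose f hf using hex
  refine Finite.of_injective (fun M => fun x : s => f M x.1) ?_
  intro M M' h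
  -- the two homomorphisms agree on a dense closed subgroup
  let E : Subgroup G := (f M).eqLocus (f M')
  have hE1 : Subgroup.closure s ≤ E := by
    rw [Subgroup.closure_le]
    intro x hx
    exact congrFun h ⟨x, hx⟩
  have hEo : IsOpen (E : Set G) := by
    refine Subgroup.isOpen_mono (H₁ := M.1 ⊓ M'.1) ?_ (M.2.2.1.inter M'.2.2.1)
    intro x hx
    show f M x = f M' x
    have h1 : x ∈ (f M).ker := by rw [hf]; exact hx.1
    have h2 : x ∈ (f M').ker := by rw [hf]; exact hx.2
    rw [MonoidHom.mem_ker.1 h1, MonoidHom.mem_ker.1 h2]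
  have hEt : (E : Set G) = Set.univ := by
    rw [Set.eq_univ_iff_forall]
    intro x
    have : x ∈ closure (Subgroup.closure s : Set G) := by rw [hd]; trivial
    exact closure_minimal hE1 (Subgroup.isClosed_of_isOpen _ hEo) this
  have hff : f M = f M' := by
    ext x
    have : x ∈ (E : Set G) := by rw [hEt]; trivial
    exact congrArg Multiplicative.toAdd this
  apply Subtype.ext
  rw [← hf M, ← hf M', hff]

/-- In a topologically finitely generated pro-`p` group, an ascending chain of closed subgroups
with dense union stops. -/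
theorem exists_eq_top [Fact p.Prime] (hG : IsProP p G) {s : Set G} (hs : s.Finite)
    (hd : closure (Subgroup.closure s : Set G) = Set.univ) (H : ℕ → Subgroup G)
    (hH : Monotone H) (hHc : ∀ n, IsClosed (H n : Set G))
    (hdense : ∀ M : Subgroup G, IsClosed (M : Set G) → (∀ n, H n ≤ M) → M = ⊤) :
    ∃ n, H n = ⊤ := by
  by_contra hcon
  push Not at hcon
  have := finite_index_p (p := p) hs hd
  choose M hM1 hM2 hM3 hM4 using fun n => exists_open_index_p hG (hHc n) (hcon n)
  let F : ℕ → {M : Subgroup G // M.Normal ∧ IsOpen (M : Set G) ∧ M.index = p} :=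
    fun n => ⟨M n, hM2 n, hM3 n, hM4 n⟩
  obtain ⟨A, hA⟩ := Finite.exists_infinite_fiber F
  have hall : ∀ n, H n ≤ A.1 := by
    intro n
    obtain ⟨m, hm, hnm⟩ := (Set.infinite_coe_iff.1 hA).exists_gt n
    have h1 : M m = A.1 := congrArg Subtype.val (show F m = A from hm)
    rw [← h1]
    exact (hH hnm.le).trans (hM1 m)
  have htop := hdense A.1 (Subgroup.isClosed_of_isOpen _ A.2.2.1) hall
  have hidx := A.2.2.2
  rw [htop, Subgroup.index_top] at hidx
  exact (Fact.out : p.Prime).one_lt.ne hidx

theorem allClosedFG_of_maxClosed (hG : MaxClosed G) : AllClosedFG G := by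
  intro K hK
  let X : Set (ClosedSubgroup G) := {H | ∃ s : Set G, s.Finite ∧ s ⊆ K ∧
    H.toSubgroup = (Subgroup.closure s).topologicalClosure}
  obtain ⟨H, ⟨s, hs, hsK, hHs⟩, hmax⟩ := hG X
    ⟨⟨(Subgroup.closure ∅).topologicalClosure, Subgroup.isClosed_topologicalClosure _⟩,
      ∅, Set.finite_empty, Set.empty_subset _, rfl⟩
  refine ⟨s, hs, ?_⟩
  apply Set.Subset.antisymm
  · intro x hx
    have h1 : (⟨(Subgroup.closure (insert x s)).topologicalClosure,
        Subgroup.isClosed_topologicalClosure _⟩ : ClosedSubgroup G) ∈ X :=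
      ⟨insert x s, hs.insert x, Set.insert_subset hx hsK, rfl⟩
    have h2 : H ≤ ⟨(Subgroup.closure (insert x s)).topologicalClosure,
        Subgroup.isClosed_topologicalClosure _⟩ := by
      show H.toSubgroup ≤ _
      rw [hHs]
      exact Subgroup.topologicalClosure_mono (Subgroup.closure_mono (Set.subset_insert _ _))
    have h3 : (Subgroup.closure (insert x s)).topologicalClosure ≤ H.toSubgroup := hmax h1 h2
    rw [hHs] at h3
    exact h3 (Subgroup.le_topologicalClosure _ (Subgroup.subset_closure (Set.mem_insert _ _)))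
  · exact closure_minimal ((Subgroup.closure_le K).2 hsK) hK

theorem maxClosed_of_allClosedFG [Fact p.Prime] (hp : IsProP p G) (hG : AllClosedFG G) :
    MaxClosed G := by
  rw [maxClosed_iff_wf, wellFoundedGT_iff_monotone_chain_condition]
  intro a
  -- the closure of the union
  let U : Subgroup G := ⨆ n, (a n).toSubgroup
  let K : Subgroup G := U.topologicalClosure
  have hKc : IsClosed (K : Set G) := Subgroup.isClosed_topologicalClosure _
  obtain ⟨s, hs, hKs⟩ := hG K hKc
  have hleK : ∀ n, (a n).toSubgroup ≤ K := fun n =>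
    (le_iSup (fun n => (a n).toSubgroup) n).trans (Subgroup.le_topologicalClosure _)
  have hcK : CompactSpace K := isCompact_iff_compactSpace.1 hKc.isCompact
  have hpK : IsProP p K := by
    apply isProP_of
    intro W
    exact (hp.isPGroup W).to_subgroup _
  have hsK : s ⊆ K := by
    rw [hKs]
    exact Subgroup.subset_closure.trans subset_closure
  let s' : Set K := Subtype.val ⁻¹' s
  have hs' : s'.Finite := hs.preimage Subtype.val_injective.injOn
  have himg : ((Subgroup.closure s').map K.subtype) = Subgroup.closure s := by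
    rw [MonoidHom.map_closure]
    congr 1
    show Subtype.val '' (Subtype.val ⁻¹' s : Set K) = s
    rw [Set.image_preimage_eq_inter_range]
    exact Set.inter_eq_left.2 (fun x hx => ⟨⟨x, hsK hx⟩, rfl⟩)
  have hd : closure (Subgroup.closure s' : Set K) = Set.univ := by
    rw [Set.eq_univ_iff_forall]
    intro x
    rw [closure_subtype]
    have h1 : (Subtype.val '' (Subgroup.closure s' : Set K)) = (Subgroup.closure s : Set G) := by
      rw [← himg]; rfl
    rw [h1, ← hKs]
    exact x.2
  obtain ⟨n, hn⟩ := exists_eq_top hpK hs' hd (fun n => (a n).toSubgroup.subgroupOf K)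
    (fun i j hij x hx => a.monotone hij hx)
    (fun n => (a n).isClosed'.preimage continuous_subtype_val)
    (by
      intro M hM hall
      have hMc : IsClosed ((M.map K.subtype : Subgroup G) : Set G) := by
        rw [Subgroup.coe_map]
        exact hKc.isClosedMap_subtype_val _ hM
      have h1 : U ≤ M.map K.subtype := by
        refine iSup_le fun n x hx => ?_
        exact ⟨⟨x, hleK n hx⟩, hall n (show (⟨x, hleK n hx⟩ : K) ∈ _ from hx), rfl⟩
      have h2 : K ≤ M.map K.subtype := Subgroup.topologicalClosure_minimal _ h1 hMc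
      rw [eq_top_iff]
      intro x _
      obtain ⟨y, hy, he⟩ := h2 x.2
      have : y = x := Subtype.ext he
      rw [← this]; exact hy)
  refine ⟨n, fun m hnm => ?_⟩
  apply le_antisymm (a.monotone hnm)
  show (a m).toSubgroup ≤ (a n).toSubgroup
  exact (hleK m).trans (Subgroup.subgroupOf_eq_top.1 hn)

end Pool.Agent.MP_c2f9c6
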