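import Pool.Agent.Lib.MP_c2f9c6_al.Finite

set_option autoImplicit false

namespace Pool.Agent.MP_c2f9c6

open Pointwise

variable {G : Type*} [Group G] [TopologicalSpace G] [IsTopologicalGroup G]

section

variable [CompactSpace G] [TotallyDisconnectedSpace G]

theorem isClosed_sup {A B : Subgroup G} [A.Normal] (hA : IsClosed (A : Set G))
    (hB : IsClosed (B : Set G)) : IsClosed ((A ⊔ B : Subgroup G) : Set G) := by
  rw [sup_comm, Subgroup.mul_normal B A]
  exact (hB.isCompact.mul hA.isCompact).isClosed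

theorem totallyDisconnected_quotient (F : Subgroup G) [F.Normal] (hF : IsClosed (F : Set G)) :
    TotallyDisconnectedSpace (G ⧸ F) := by
  suffices h : TotallySeparatedSpace (G ⧸ F) from inferInstance
  apply totallySeparatedSpace_iff_exists_isClopen.2
  intro x y hxy
  obtain ⟨x, rfl⟩ := QuotientGroup.mk'_surjective F x
  obtain ⟨y, rfl⟩ := QuotientGroup.mk'_surjective F y
  have h1 : x⁻¹ * y ∉ F := fun h => hxy (QuotientGroup.eq.2 h)
  have h2 : ∃ N : OpenNormalSubgroup G, ∀ z ∈ F, z⁻¹ * (x⁻¹ * y) ∉ N := by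
    by_contra hcon
    push Not at hcon
    exact h1 (mem_of_forall hF hcon)
  obtain ⟨N, hN⟩ := h2
  let U : Subgroup (G ⧸ F) := N.toSubgroup.map (QuotientGroup.mk' F)
  have hUo : IsOpen (U : Set (G ⧸ F)) := by
    have := QuotientGroup.isOpenMap_coe (N := F) (N.toSubgroup : Set G) N.isOpen'
    exact this
  have hUc : IsClosed (U : Set (G ⧸ F)) := Subgroup.isClosed_of_isOpen _ hUo
  refine ⟨{z | (QuotientGroup.mk' F x)⁻¹ * z ∈ U}, ⟨hUc.preimage (by fun_prop),
    hUo.preimage (by fun_prop)⟩, ?_, ?_⟩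
  · show (QuotientGroup.mk' F x)⁻¹ * QuotientGroup.mk' F x ∈ U
    rw [inv_mul_cancel]; exact U.one_mem
  · intro h
    have h' : (QuotientGroup.mk' F x)⁻¹ * QuotientGroup.mk' F y ∈ U := h
    obtain ⟨n, hn, he⟩ := h'
    rw [← map_inv, ← map_mul] at he
    have h3 : n⁻¹ * (x⁻¹ * y) ∈ F := QuotientGroup.eq.1 he
    -- x⁻¹ y = n f, rewrite as f' n
    have h4 : (x⁻¹ * y) * n⁻¹ ∈ F := by
      have := (inferInstance : F.Normal).conj_mem _ h3 n
      simpa [mul_assoc] using this
    refine hN _ h4 ?_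
    have : ((x⁻¹ * y) * n⁻¹)⁻¹ * (x⁻¹ * y) = n := by group
    rw [this]
    exact hn

end

omit [IsTopologicalGroup G] in
theorem MaxClosed.quotient (hG : MaxClosed G) (F : Subgroup G) [F.Normal] :
    MaxClosed (G ⧸ F) := by
  intro S hS
  let c : ClosedSubgroup (G ⧸ F) → ClosedSubgroup G := fun H =>
    ⟨H.toSubgroup.comap (QuotientGroup.mk' F), H.isClosed'.preimage QuotientGroup.continuous_mk⟩
  obtain ⟨_, ⟨⟨H, hH, rfl⟩, hmax⟩⟩ := hG (c '' S) (hS.image c)
  refine ⟨H, hH, ?_⟩
  intro K hK hHK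
  have h1 : c H ≤ c K := fun x hx => hHK hx
  have h2 : c K ≤ c H := hmax ⟨K, hK, rfl⟩ h1
  intro x hx
  obtain ⟨x, rfl⟩ := QuotientGroup.mk'_surjective F x
  exact h2 (show x ∈ c K from hx)

omit [IsTopologicalGroup G] in
theorem MaxClosed.subgroup (hG : MaxClosed G) {F : Subgroup G} (hF : IsClosed (F : Set G)) :
    MaxClosed F := by
  intro S hS
  let c : ClosedSubgroup F → ClosedSubgroup G := fun H =>
    ⟨H.toSubgroup.map F.subtype, by
      show IsClosed ((H.toSubgroup.map F.subtype : Subgroup G) : Set G)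
      rw [Subgroup.coe_map]
      exact hF.isClosedMap_subtype_val _ H.isClosed'⟩
  obtain ⟨_, ⟨⟨H, hH, rfl⟩, hmax⟩⟩ := hG (c '' S) (hS.image c)
  refine ⟨H, hH, ?_⟩
  intro K hK hHK
  have h1 : c H ≤ c K := by
    rintro _ ⟨x, hx, rfl⟩
    exact ⟨x, hHK hx, rfl⟩
  have h2 : c K ≤ c H := hmax ⟨K, hK, rfl⟩ h1
  intro x hx
  obtain ⟨y, hy, he⟩ := h2 (show (x : G) ∈ c K from ⟨x, hx, rfl⟩)
  have : y = x := Subtype.ext he
  rw [← this]; exact hy

section

variable [CompactSpace G] [TotallyDisconnectedSpace G]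

theorem PrimeTo.sup {p : ℕ} (hp : p.Prime) {A B : Subgroup G} [A.Normal] (hA : PrimeTo p A)
    (hB : PrimeTo p B) : PrimeTo p (A ⊔ B) := by
  intro W hd
  rw [Subgroup.map_sup] at hd
  set A' := A.map (pr W)
  set B' := B.map (pr W)
  have hAn : A'.Normal := Subgroup.Normal.map inferInstance _ (QuotientGroup.mk'_surjective _)
  have h1 : Nat.card (A' ⊔ B' : Subgroup _) = Nat.card A' * A'.relIndex B' := by
    rw [← Subgroup.relIndex_sup_right (H := B') (K := A'), sup_comm B' A',
      ← Subgroup.relIndex_bot_left, ← Subgroup.relIndex_bot_left,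
      Subgroup.relIndex_mul_relIndex _ _ _ bot_le le_sup_left]
  rw [h1] at hd
  rcases hp.dvd_mul.1 hd with h | h
  · exact hA W h
  · exact hB W (h.trans (Subgroup.relIndex_dvd_card _ _))

theorem primeTo_of_proP {p q : ℕ} (hp : p.Prime) (hq : q.Prime) (hpq : p ≠ q) {A : Subgroup G}
    (hA : ∀ W : OpenNormalSubgroup G, IsPGroup q (A.map (pr W))) : PrimeTo p A := by
  intro W hd
  have : Fact q.Prime := ⟨hq⟩
  obtain ⟨k, hk⟩ := IsPGroup.iff_card.1 (hA W)
  rw [hk] at hd
  exact hpq ((Nat.prime_dvd_prime_iff_eq hp hq).1 (hp.dvd_of_dvd_pow hd))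

theorem primeTo_bot {p : ℕ} (hp : p.Prime) : PrimeTo p (⊥ : Subgroup G) := by
  intro W hd
  rw [Subgroup.map_bot, Subgroup.card_bot] at hd
  exact hp.one_lt.ne' (Nat.dvd_one.1 hd)

theorem normal_finset_sup (S : Finset ℕ) (F : ℕ → Subgroup G) (hF : ∀ p, (F p).Normal) :
    (S.sup F).Normal := by
  classical
  induction S using Finset.induction_on with
  | empty => rw [Finset.sup_empty]; infer_instance
  | insert a s ha ih =>
    rw [Finset.sup_insert]
    have := hF a
    infer_instance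

theorem isClosed_finset_sup (S : Finset ℕ) (F : ℕ → Subgroup G) (hF : ∀ p, (F p).Normal)
    (hFc : ∀ p, IsClosed (F p : Set G)) : IsClosed ((S.sup F : Subgroup G) : Set G) := by
  classical
  induction S using Finset.induction_on with
  | empty => rw [Finset.sup_empty]; simp
  | insert a s ha ih =>
    rw [Finset.sup_insert]
    have := hF a
    exact isClosed_sup (hFc a) ih

theorem primeTo_finset_sup {p : ℕ} (hp : p.Prime) (S : Finset ℕ) (F : ℕ → Subgroup G)
    (hF : ∀ p, (F p).Normal) (hS : ∀ q ∈ S, PrimeTo p (F q)) : PrimeTo p (S.sup F) := by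
  classical
  induction S using Finset.induction_on with
  | empty => rw [Finset.sup_empty]; exact primeTo_bot hp
  | insert a s ha ih =>
    rw [Finset.sup_insert]
    have := hF a
    exact (hS a (Finset.mem_insert_self _ _)).sup hp
      (ih (fun q hq => hS q (Finset.mem_insert_of_mem hq)))

theorem isProP_of {p : ℕ} [Fact p.Prime] {P : Subgroup G}
    (hP : ∀ W : OpenNormalSubgroup G, IsPGroup p (P.map (pr W))) : IsProP p P := by
  intro U hU hUo
  obtain ⟨V, hVo, hV⟩ := isOpen_induced_iff.1 hUo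
  have h1V : (1 : G) ∈ V := by
    have : (1 : P) ∈ (Subtype.val ⁻¹' V : Set P) := by rw [hV]; exact U.one_mem
    exact this
  obtain ⟨W, hW⟩ := ProfiniteGrp.exist_openNormalSubgroup_sub_open_nhds_of_one hVo h1V
  have hle : W.toSubgroup.subgroupOf P ≤ U := by
    intro x hx
    have : x ∈ (Subtype.val ⁻¹' V : Set P) := hW hx
    rw [hV] at this
    exact this
  have h2 : U.index ∣ (W.toSubgroup.subgroupOf P).index := Subgroup.index_dvd_of_le hle
  have h3 : (W.toSubgroup.subgroupOf P).index = Nat.card (P.map (pr W)) := by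
    have := Subgroup.relIndex_ker P (pr W)
    rw [QuotientGroup.ker_mk'] at this
    exact this
  obtain ⟨k, hk⟩ := IsPGroup.iff_card.1 (hP W)
  rw [h3, hk] at h2
  obtain ⟨j, -, hj⟩ := (Nat.dvd_prime_pow Fact.out).1 h2
  exact ⟨j, hj⟩

end

end Pool.Agent.MP_c2f9c6
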